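import Mathlib

set_option autoImplicit false

namespace Pool.Agent.Helper43.OD

open Finset

/-- the sum of n^(-s) over 1 <= n <= i -/
noncomputable def h (i s : ℕ) : ℝ := ∑ n ∈ Finset.range i, 1 / ((n + 1 : ℕ) : ℝ) ^ s

/-- the general term of the double sum -/
noncomputable def dt (a s : ℕ) (p : ℕ × ℕ) : ℝ :=
  (1 : ℝ) / ((((p.1 + p.2 + 2 : ℕ) : ℝ) ^ a) * (((p.2 + 1 : ℕ) : ℝ) ^ s))

lemma h_nonneg (i s : ℕ) : 0 ≤ h i s := by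
  unfold h; positivity

lemma h_zero (s : ℕ) : h 0 s = 0 := by simp [h]

lemma h_le (i s : ℕ) : h i s ≤ i := by
  unfold h
  calc ∑ n ∈ Finset.range i, 1 / ((n + 1 : ℕ) : ℝ) ^ s ≤ ∑ n ∈ Finset.range i, (1 : ℝ) := by
        apply Finset.sum_le_sum
        intro n _
        rw [div_le_one (by positivity)]
        exact one_le_pow₀ (by push_cast; linarith [(Nat.cast_nonneg n : (0:ℝ) ≤ n)])
    _ = i := by simp

lemma dt_nonneg (a s : ℕ) (p : ℕ × ℕ) : 0 ≤ dt a s p := by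
  unfold dt; positivity

lemma dt_summable (a s : ℕ) (ha : 2 ≤ a) (hs : 1 ≤ s) : Summable (dt a s) := by
  have h1 : Summable (fun n : ℕ => 1 / ((n : ℝ) + 1) ^ (3 / 2 : ℝ)) := by
    have := (Real.summable_one_div_nat_add_rpow 1 (3 / 2)).2 (by norm_num)
    refine this.congr ?_
    intro n
    rw [abs_of_nonneg (by positivity)]
  have h2 : Summable (fun p : ℕ × ℕ => (1 / ((p.1 : ℝ) + 1) ^ (3 / 2 : ℝ)) * (1 / ((p.2 : ℝ) + 1) ^ (3 / 2 : ℝ))) :=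
    h1.mul_of_nonneg h1 (fun n => by positivity) (fun n => by positivity)
  refine Summable.of_nonneg_of_le (dt_nonneg a s) ?_ h2
  intro p
  unfold dt
  rw [one_div_mul_one_div]
  apply one_div_le_one_div_of_le (by positivity)
  have hx : (1 : ℝ) ≤ (p.1 : ℝ) + 1 := by linarith [(Nat.cast_nonneg p.1 : (0:ℝ) ≤ p.1)]
  have hy : (1 : ℝ) ≤ (p.2 : ℝ) + 1 := by linarith [(Nat.cast_nonneg p.2 : (0:ℝ) ≤ p.2)]
  have hm : (1 : ℝ) ≤ ((p.1 + p.2 + 2 : ℕ) : ℝ) := by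
    push_cast; linarith
  have hmx : (p.1 : ℝ) + 1 ≤ ((p.1 + p.2 + 2 : ℕ) : ℝ) := by
    push_cast; linarith
  have hmy : (p.2 : ℝ) + 1 ≤ ((p.1 + p.2 + 2 : ℕ) : ℝ) := by
    push_cast; linarith
  have e1 : (((p.1 + p.2 + 2 : ℕ) : ℝ)) ^ 2 ≤ ((p.1 + p.2 + 2 : ℕ) : ℝ) ^ a :=
    pow_le_pow_right₀ hm ha
  have e2 : ((p.2 + 1 : ℕ) : ℝ) ≤ ((p.2 + 1 : ℕ) : ℝ) ^ s := by
    calc ((p.2 + 1 : ℕ) : ℝ) = ((p.2 + 1 : ℕ) : ℝ) ^ 1 := (pow_one _).symm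
      _ ≤ _ := pow_le_pow_right₀ (by push_cast; linarith) hs
  have e3 : ((p.1 : ℝ) + 1) ^ (3 / 2 : ℝ) * ((p.2 : ℝ) + 1) ^ (1 / 2 : ℝ) ≤ (((p.1 + p.2 + 2 : ℕ) : ℝ)) ^ 2 := by
    have f1 : ((p.1 : ℝ) + 1) ^ (3 / 2 : ℝ) ≤ (((p.1 + p.2 + 2 : ℕ) : ℝ)) ^ (3 / 2 : ℝ) :=
      Real.rpow_le_rpow (by positivity) hmx (by norm_num)
    have f2 : ((p.2 : ℝ) + 1) ^ (1 / 2 : ℝ) ≤ (((p.1 + p.2 + 2 : ℕ) : ℝ)) ^ (1 / 2 : ℝ) :=
      Real.rpow_le_rpow (by positivity) hmy (by norm_num)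
    calc _ ≤ (((p.1 + p.2 + 2 : ℕ) : ℝ)) ^ (3 / 2 : ℝ) * (((p.1 + p.2 + 2 : ℕ) : ℝ)) ^ (1 / 2 : ℝ) := by
            apply mul_le_mul f1 f2 (by positivity) (by positivity)
      _ = _ := by
          rw [← Real.rpow_add (by linarith)]
          norm_num
  have e4 : ((p.2 : ℝ) + 1) ^ (3 / 2 : ℝ) = ((p.2 : ℝ) + 1) ^ (1 / 2 : ℝ) * ((p.2 : ℝ) + 1) := by
    nth_rewrite 3 [← Real.rpow_one ((p.2 : ℝ) + 1)]
    rw [← Real.rpow_add (by linarith)]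
    norm_num
  rw [e4]
  calc ((p.1 : ℝ) + 1) ^ (3 / 2 : ℝ) * (((p.2 : ℝ) + 1) ^ (1 / 2 : ℝ) * ((p.2 : ℝ) + 1))
      = (((p.1 : ℝ) + 1) ^ (3 / 2 : ℝ) * ((p.2 : ℝ) + 1) ^ (1 / 2 : ℝ)) * ((p.2 + 1 : ℕ) : ℝ) := by
        push_cast; ring
    _ ≤ (((p.1 + p.2 + 2 : ℕ) : ℝ) ^ a) * (((p.2 + 1 : ℕ) : ℝ) ^ s) := by
        apply mul_le_mul (le_trans e3 e1) e2 (by positivity) (by positivity)

lemma dz_eq (a s : ℕ) (ha : 2 ≤ a) (hs : 1 ≤ s) :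
    HasSum (fun i : ℕ => 1 / ((i + 1 : ℕ) : ℝ) ^ a * h i s) (∑' p : ℕ × ℕ, dt a s p) := by
  have hsum := dt_summable a s ha hs
  have h0 : HasSum (dt a s) (∑' p : ℕ × ℕ, dt a s p) := hsum.hasSum
  have h1 : HasSum (fun x : (Σ n : ℕ, antidiagonal n) => dt a s (x.2 : ℕ × ℕ)) (∑' p : ℕ × ℕ, dt a s p) := by
    have := (Finset.HasAntidiagonal.sigmaAntidiagonalEquivProd (A := ℕ)).hasSum_iff (f := dt a s) (a := ∑' p : ℕ × ℕ, dt a s p)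
    exact this.2 h0
  have h2 : HasSum (fun j : ℕ => ∑ p ∈ antidiagonal j, dt a s p) (∑' p : ℕ × ℕ, dt a s p) := by
    refine h1.sigma ?_
    intro j
    have := hasSum_fintype (fun x : antidiagonal j => dt a s (x : ℕ × ℕ))
    convert this using 1
    exact (Finset.sum_coe_sort (antidiagonal j) (dt a s)).symm
  have h3 : ∀ j : ℕ, ∑ p ∈ antidiagonal j, dt a s p = 1 / ((j + 1 + 1 : ℕ) : ℝ) ^ a * h (j + 1) s := by
    intro j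
    rw [← Finset.Nat.sum_antidiagonal_swap]
    rw [Finset.Nat.sum_antidiagonal_eq_sum_range_succ_mk]
    unfold h
    rw [Finset.mul_sum]
    apply Finset.sum_congr rfl
    intro n hn
    have hn' : n ≤ j := by
      have := Finset.mem_range.1 hn; omega
    unfold dt
    simp only [Prod.swap_prod_mk]
    have : j - n + n + 2 = j + 1 + 1 := by omega
    rw [this, one_div_mul_one_div]
  have h4 : HasSum (fun j : ℕ => 1 / ((j + 1 + 1 : ℕ) : ℝ) ^ a * h (j + 1) s) (∑' p : ℕ × ℕ, dt a s p) := by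
    refine h2.congr_fun ?_
    intro j; exact (h3 j).symm
  have h5 := (hasSum_nat_add_iff (f := fun i : ℕ => 1 / ((i + 1 : ℕ) : ℝ) ^ a * h i s) 1).1 h4
  simpa [h_zero] using h5

end Pool.Agent.Helper43.OD
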