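import Mathlib
import Pool.Agent.Helper43.OD.Basic

set_option autoImplicit false

namespace Pool.Agent.Helper43.OD

open Finset

/-- coefficient of N^(-k), N = i + 1 -/
noncomputable def T (S : ℕ) (c0 : ℤ) (c : ℕ → ℤ) (i : ℕ) : ℝ :=
  ∑ s ∈ Finset.Icc 1 S, (c s : ℝ) * (((i + 1 : ℕ) : ℝ) ^ s * h i s) - c0

lemma T_zero (S : ℕ) (c0 : ℤ) (c : ℕ → ℤ) : T S c0 c 0 = -c0 := by
  simp [T, h_zero]

/-- clearing denominators -/
lemma T_int (S : ℕ) (c0 : ℤ) (c : ℕ → ℤ) (i D : ℕ) (hD : ∀ n ∈ Finset.range i, (n + 1) ∣ D) :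
    (D : ℝ) ^ S * T S c0 c i =
      ((∑ s ∈ Finset.Icc 1 S, c s * ((i + 1 : ℕ) : ℤ) ^ s * (D : ℤ) ^ (S - s) *
        (∑ n ∈ Finset.range i, ((D / (n + 1) : ℕ) : ℤ) ^ s) - c0 * (D : ℤ) ^ S : ℤ) : ℝ) := by
  rw [Int.cast_sub, Int.cast_sum]
  unfold T h
  rw [mul_sub, Finset.mul_sum]
  congr 1
  · apply Finset.sum_congr rfl
    intro s hs
    have hs' := Finset.mem_Icc.1 hs
    rw [Finset.mul_sum, Finset.mul_sum, Finset.mul_sum, Finset.mul_sum, Int.cast_sum]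
    apply Finset.sum_congr rfl
    intro n hn
    obtain ⟨q, hq⟩ := hD n hn
    have hq' : D / (n + 1) = q := by
      rw [hq]; exact Nat.mul_div_cancel_left q (Nat.succ_pos n)
    rw [hq']
    have hDS : (D : ℝ) ^ S = (D : ℝ) ^ (S - s) * (D : ℝ) ^ s := by
      rw [← pow_add]; congr 1; omega
    have hDr : (D : ℝ) = ((n : ℝ) + 1) * q := by
      rw [hq]; push_cast; ring
    have hn1 : ((n : ℝ) + 1) ≠ 0 := by positivity
    rw [hDS]
    have h1 : (D : ℝ) ^ s = ((n : ℝ) + 1) ^ s * (q : ℝ) ^ s := by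
      rw [hDr, mul_pow]
    rw [h1]
    push_cast
    field_simp
  · push_cast; ring

lemma T_lower (S : ℕ) (c0 : ℤ) (c : ℕ → ℤ) (i : ℕ) (hT : T S c0 c i ≠ 0) :
    1 ≤ (Nat.lcmUpto i : ℝ) ^ S * |T S c0 c i| := by
  have hD : ∀ n ∈ Finset.range i, (n + 1) ∣ Nat.lcmUpto i := by
    intro n hn
    have : n + 1 ∈ Finset.Icc 1 i := by
      have := Finset.mem_range.1 hn
      rw [Finset.mem_Icc]; omega
    exact Finset.dvd_lcm (f := id) this
  have hpos : (0 : ℝ) < (Nat.lcmUpto i : ℝ) := by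
    exact_mod_cast Nat.lcmUpto_pos i
  have h1 := T_int S c0 c i (Nat.lcmUpto i) hD
  rw [← abs_of_pos (pow_pos hpos S), ← abs_mul, h1]
  have h2 : ((∑ s ∈ Finset.Icc 1 S, c s * ((i + 1 : ℕ) : ℤ) ^ s * ((Nat.lcmUpto i : ℕ) : ℤ) ^ (S - s) *
        (∑ n ∈ Finset.range i, (((Nat.lcmUpto i) / (n + 1) : ℕ) : ℤ) ^ s) - c0 * ((Nat.lcmUpto i : ℕ) : ℤ) ^ S : ℤ)) ≠ 0 := by
    intro h0
    rw [h0] at h1
    push_cast at h1
    have := mul_eq_zero.1 h1
    rcases this with h | h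
    · exact absurd h (pow_pos hpos S).ne'
    · exact hT h
  have h3 := Int.one_le_abs h2
  exact_mod_cast h3

/-- a prime p with vanishing coefficient at N = p + 1 divides the top coefficient -/
lemma prime_dvd (S : ℕ) (c : ℕ → ℤ) (p s0 : ℕ) (hp : p.Prime) (h1 : 1 ≤ s0) (h2 : s0 ≤ S)
    (h3 : ∀ s, s0 < s → s ≤ S → c s = 0) (hT : T S 0 c p = 0) : (p : ℤ) ∣ c s0 := by
  have hT' : T s0 0 c p = 0 := by
    rw [← hT]
    unfold T
    congr 1
    apply Finset.sum_subset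
    · intro s hs
      have := Finset.mem_Icc.1 hs
      rw [Finset.mem_Icc]; omega
    · intro s hs hs'
      have a1 := Finset.mem_Icc.1 hs
      have : s0 < s := by
        by_contra hc
        exact hs' (Finset.mem_Icc.2 ⟨a1.1, by omega⟩)
      rw [h3 s this a1.2]; simp
  have hD : ∀ n ∈ Finset.range p, (n + 1) ∣ p.factorial := by
    intro n hn
    have := Finset.mem_range.1 hn
    exact Nat.dvd_factorial (Nat.succ_pos n) (by omega)
  have h4 := T_int s0 0 c p p.factorial hD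
  rw [hT', mul_zero] at h4
  have h5 : (∑ s ∈ Finset.Icc 1 s0, c s * ((p + 1 : ℕ) : ℤ) ^ s * ((p.factorial : ℕ) : ℤ) ^ (s0 - s) *
        (∑ n ∈ Finset.range p, ((p.factorial / (n + 1) : ℕ) : ℤ) ^ s) - 0 * ((p.factorial : ℕ) : ℤ) ^ s0 : ℤ) = 0 := by
    exact_mod_cast h4.symm
  rw [zero_mul, sub_zero] at h5
  -- split off s = s0
  rw [← Finset.sum_sdiff (Finset.singleton_subset_iff.2 (Finset.mem_Icc.2 ⟨h1, le_refl s0⟩)), Finset.sum_singleton] at h5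
  have hpf : (p : ℤ) ∣ ((p.factorial : ℕ) : ℤ) := by
    exact_mod_cast Nat.dvd_factorial hp.pos (le_refl p)
  have h6 : (p : ℤ) ∣ ∑ s ∈ Finset.Icc 1 s0 \ {s0}, c s * ((p + 1 : ℕ) : ℤ) ^ s * ((p.factorial : ℕ) : ℤ) ^ (s0 - s) *
        (∑ n ∈ Finset.range p, ((p.factorial / (n + 1) : ℕ) : ℤ) ^ s) := by
    apply Finset.dvd_sum
    intro s hs
    have a1 := Finset.mem_sdiff.1 hs
    have a2 := Finset.mem_Icc.1 a1.1
    have a3 : s ≠ s0 := by
      intro hc; exact a1.2 (Finset.mem_singleton.2 hc)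
    have a4 : (p : ℤ) ∣ ((p.factorial : ℕ) : ℤ) ^ (s0 - s) := dvd_pow hpf (by omega)
    exact Dvd.dvd.mul_right (Dvd.dvd.mul_left a4 _) _
  have h7 : (p : ℤ) ∣ c s0 * ((p + 1 : ℕ) : ℤ) ^ s0 * ((p.factorial : ℕ) : ℤ) ^ (s0 - s0) *
        (∑ n ∈ Finset.range p, ((p.factorial / (n + 1) : ℕ) : ℤ) ^ s0) := by
    have : c s0 * ((p + 1 : ℕ) : ℤ) ^ s0 * ((p.factorial : ℕ) : ℤ) ^ (s0 - s0) *
        (∑ n ∈ Finset.range p, ((p.factorial / (n + 1) : ℕ) : ℤ) ^ s0) =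
        - ∑ s ∈ Finset.Icc 1 s0 \ {s0}, c s * ((p + 1 : ℕ) : ℤ) ^ s * ((p.factorial : ℕ) : ℤ) ^ (s0 - s) *
        (∑ n ∈ Finset.range p, ((p.factorial / (n + 1) : ℕ) : ℤ) ^ s) := by linarith
    rw [this]
    exact (dvd_neg.2 h6)
  rw [Nat.sub_self, pow_zero, mul_one] at h7
  obtain ⟨q, rfl⟩ : ∃ q, p = q + 1 := ⟨p - 1, by have := hp.pos; omega⟩
  rw [Finset.sum_range_succ] at h7
  have h8 : ((q + 1 : ℕ) : ℤ) ∣ ∑ n ∈ Finset.range q, (((q + 1).factorial / (n + 1) : ℕ) : ℤ) ^ s0 := by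
    apply Finset.dvd_sum
    intro n hn
    have a1 := Finset.mem_range.1 hn
    apply dvd_pow _ (by omega)
    have a2 : (n + 1) ∣ q.factorial := Nat.dvd_factorial (Nat.succ_pos n) (by omega)
    obtain ⟨w, hw⟩ := a2
    have a3 : (q + 1).factorial / (n + 1) = (q + 1) * w := by
      rw [Nat.factorial_succ, hw]
      rw [show (q + 1) * ((n + 1) * w) = (n + 1) * ((q + 1) * w) by ring]
      exact Nat.mul_div_cancel_left _ (Nat.succ_pos n)
    rw [a3]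
    push_cast
    exact Dvd.intro _ rfl
  have h9 : (q + 1).factorial / (q + 1) = q.factorial := by
    rw [Nat.factorial_succ]; exact Nat.mul_div_cancel_left _ (Nat.succ_pos q)
  rw [h9] at h7
  have hpr : Prime ((q + 1 : ℕ) : ℤ) := Nat.prime_iff_prime_int.1 hp
  rw [mul_add] at h7
  have h10 : ((q + 1 : ℕ) : ℤ) ∣ c (s0) * ((q + 1 + 1 : ℕ) : ℤ) ^ s0 * ((q.factorial : ℕ) : ℤ) ^ s0 := by
    have := (dvd_add_right (Dvd.dvd.mul_left h8 (c s0 * ((q + 1 + 1 : ℕ) : ℤ) ^ s0))).1 h7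
    exact this
  rcases hpr.dvd_or_dvd h10 with h11 | h11
  · rcases hpr.dvd_or_dvd h11 with h12 | h12
    · exact h12
    · exfalso
      have h13 := hpr.dvd_of_dvd_pow h12
      have h14 : (q + 1) ∣ (q + 1 + 1) := by exact_mod_cast h13
      have h15 : (q + 1) ∣ 1 := by
        have := (Nat.dvd_add_right (dvd_refl (q + 1))).1 h14
        exact this
      have := Nat.le_of_dvd one_pos h15
      have := hp.two_le
      omega
  · exfalso
    have h13 := hpr.dvd_of_dvd_pow h11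
    have h14 : (q + 1) ∣ q.factorial := by exact_mod_cast h13
    have := (hp.dvd_factorial).1 h14
    omega

end Pool.Agent.Helper43.OD
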