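import Mathlib
import Pool.Agent.Helper43.OD.Height

set_option autoImplicit false

namespace Pool.Agent.Helper43.OD

open Finset

lemma T_upper (S : ℕ) (c0 : ℤ) (c : ℕ → ℤ) (H : ℝ) (hS : 1 ≤ S) (h0 : |(c0 : ℝ)| ≤ H)
    (hc : ∀ s ∈ Finset.Icc 1 S, |(c s : ℝ)| ≤ H) (j : ℕ) :
    |T S c0 c j| ≤ 2 * S * H * ((j + 1 : ℕ) : ℝ) ^ (S + 1) := by
  have hH : 0 ≤ H := le_trans (abs_nonneg _) h0
  have hj1 : (1 : ℝ) ≤ ((j + 1 : ℕ) : ℝ) := by push_cast; linarith [(Nat.cast_nonneg j : (0:ℝ) ≤ j)]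
  have hS1 : (1 : ℝ) ≤ (S : ℝ) := by exact_mod_cast hS
  have h1 : |∑ s ∈ Finset.Icc 1 S, (c s : ℝ) * (((j + 1 : ℕ) : ℝ) ^ s * h j s)| ≤
      ∑ s ∈ Finset.Icc 1 S, H * ((j + 1 : ℕ) : ℝ) ^ (S + 1) := by
    refine le_trans (Finset.abs_sum_le_sum_abs _ _) (Finset.sum_le_sum ?_)
    intro s hs
    have hs' := Finset.mem_Icc.1 hs
    rw [abs_mul, abs_of_nonneg (mul_nonneg (by positivity) (h_nonneg j s))]
    apply mul_le_mul (hc s hs) _ (mul_nonneg (by positivity) (h_nonneg j s)) hH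
    calc ((j + 1 : ℕ) : ℝ) ^ s * h j s ≤ ((j + 1 : ℕ) : ℝ) ^ S * ((j + 1 : ℕ) : ℝ) := by
          apply mul_le_mul (pow_le_pow_right₀ hj1 hs'.2) _ (h_nonneg j s) (by positivity)
          refine le_trans (h_le j s) ?_
          push_cast; linarith
      _ = _ := by rw [pow_succ]
  rw [Finset.sum_const, Nat.card_Icc, nsmul_eq_mul] at h1
  have h2 : (1 : ℝ) ≤ ((j + 1 : ℕ) : ℝ) ^ (S + 1) := one_le_pow₀ hj1
  unfold T
  have h3 := abs_sub (∑ s ∈ Finset.Icc 1 S, (c s : ℝ) * (((j + 1 : ℕ) : ℝ) ^ s * h j s)) (c0 : ℝ)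
  have h4 : ((S + 1 - 1 : ℕ) : ℝ) = S := by simp
  rw [h4] at h1
  have h5 : H ≤ S * (H * ((j + 1 : ℕ) : ℝ) ^ (S + 1)) := by
    calc H = 1 * (H * 1) := by ring
      _ ≤ S * (H * ((j + 1 : ℕ) : ℝ) ^ (S + 1)) := by
        apply mul_le_mul hS1 _ (by positivity) (by positivity)
        exact mul_le_mul_of_nonneg_left h2 hH
  calc _ ≤ _ := h3
    _ ≤ S * (H * ((j + 1 : ℕ) : ℝ) ^ (S + 1)) + S * (H * ((j + 1 : ℕ) : ℝ) ^ (S + 1)) := by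
        linarith
    _ = _ := by ring

lemma sum_sq_le (i : ℕ) : ∑' j : ℕ, 1 / ((j + i + 2 : ℕ) : ℝ) ^ 2 ≤ 2 := by
  have hs : Summable (fun n : ℕ => 1 / (n : ℝ) ^ 2) := hasSum_zeta_two.summable
  have h1 : ∑' j : ℕ, 1 / ((j + i + 2 : ℕ) : ℝ) ^ 2 ≤ ∑' n : ℕ, 1 / (n : ℝ) ^ 2 := by
    have hinj : Function.Injective (fun j : ℕ => j + i + 2) := by
      intro a b hab; simp at hab; omega
    exact tsum_comp_le_tsum_of_inj hs (fun n => by positivity) hinj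
  rw [hasSum_zeta_two.tsum_eq] at h1
  have h2 : Real.pi < 3.15 := Real.pi_lt_d2
  have h3 : 0 < Real.pi := Real.pi_pos
  nlinarith

lemma key (k S : ℕ) (c0 : ℤ) (c : ℕ → ℤ) (H : ℝ) (hS : 1 ≤ S) (hk : S + 3 ≤ k)
    (h0 : |(c0 : ℝ)| ≤ H) (hc : ∀ s ∈ Finset.Icc 1 S, |(c s : ℝ)| ≤ H)
    (hrel : HasSum (fun i : ℕ => 1 / ((i + 1 : ℕ) : ℝ) ^ k * T S c0 c i) 0) (i : ℕ)
    (hi : ∀ j < i, T S c0 c j = 0) :
    1 / ((i + 1 : ℕ) : ℝ) ^ k * |T S c0 c i| ≤ 4 * S * H * ((i + 2 : ℕ) : ℝ) ^ (S + 3) / ((i + 2 : ℕ) : ℝ) ^ k := by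
  have hH : 0 ≤ H := le_trans (abs_nonneg _) h0
  set f : ℕ → ℝ := fun i : ℕ => 1 / ((i + 1 : ℕ) : ℝ) ^ k * T S c0 c i with hf
  have hsum : Summable f := hrel.summable
  have h1 := hsum.sum_add_tsum_nat_add (i + 1)
  rw [hrel.tsum_eq, Finset.sum_range_succ] at h1
  have h2 : ∑ j ∈ Finset.range i, f j = 0 := by
    apply Finset.sum_eq_zero
    intro j hj
    simp only [hf]
    rw [hi j (Finset.mem_range.1 hj), mul_zero]
  rw [h2, zero_add] at h1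
  have h3 : |f i| = |∑' j, f (j + (i + 1))| := by
    have : f i = - ∑' j, f (j + (i + 1)) := by linarith
    rw [this, abs_neg]
  have h4 : |f i| = 1 / ((i + 1 : ℕ) : ℝ) ^ k * |T S c0 c i| := by
    simp only [hf]
    rw [abs_mul, abs_of_nonneg (by positivity)]
  rw [← h4, h3]
  set B : ℝ := 2 * S * H * ((i + 2 : ℕ) : ℝ) ^ (S + 3) / ((i + 2 : ℕ) : ℝ) ^ k with hB
  have hB0 : 0 ≤ B := by positivity
  have h5 : ∀ j : ℕ, |f (j + (i + 1))| ≤ B * (1 / ((j + i + 2 : ℕ) : ℝ) ^ 2) := by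
    intro j
    simp only [hf]
    rw [abs_mul, abs_of_nonneg (by positivity)]
    have e0 : ((j + (i + 1) + 1 : ℕ) : ℝ) = ((j + i + 2 : ℕ) : ℝ) := by push_cast; ring
    rw [e0]
    have e1 := T_upper S c0 c H hS h0 hc (j + (i + 1))
    rw [e0] at e1
    have hx : (0 : ℝ) < ((j + i + 2 : ℕ) : ℝ) := by positivity
    have hy : (0 : ℝ) < ((i + 2 : ℕ) : ℝ) := by positivity
    have hxy : ((i + 2 : ℕ) : ℝ) ≤ ((j + i + 2 : ℕ) : ℝ) := by push_cast; linarith [(Nat.cast_nonneg j : (0:ℝ) ≤ j)]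
    set x : ℝ := ((j + i + 2 : ℕ) : ℝ)
    set y : ℝ := ((i + 2 : ℕ) : ℝ)
    obtain ⟨a, rfl⟩ : ∃ a, k = a + (S + 3) := ⟨k - (S + 3), by omega⟩
    have e2 : y ^ (S + 3) / y ^ (a + (S + 3)) = 1 / y ^ a := by
      rw [pow_add y a (S + 3), div_eq_div_iff (by positivity) (by positivity)]; ring
    have e3 : 1 / x ^ (a + (S + 3)) * (2 * S * H * x ^ (S + 1)) = 2 * S * H * (1 / x ^ a) * (1 / x ^ 2) := by
      rw [pow_add, show S + 3 = (S + 1) + 2 from rfl, pow_add]; field_simp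
    have e4 : 1 / x ^ a ≤ 1 / y ^ a := one_div_le_one_div_of_le (pow_pos hy a) (pow_le_pow_left₀ hy.le hxy a)
    calc 1 / x ^ (a + (S + 3)) * |T S c0 c (j + (i + 1))| ≤ 1 / x ^ (a + (S + 3)) * (2 * S * H * x ^ (S + 1)) := by
          apply mul_le_mul_of_nonneg_left e1 (by positivity)
      _ = 2 * S * H * (1 / x ^ a) * (1 / x ^ 2) := e3
      _ ≤ 2 * S * H * (1 / y ^ a) * (1 / x ^ 2) := by
          apply mul_le_mul_of_nonneg_right _ (by positivity)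
          apply mul_le_mul_of_nonneg_left e4 (by positivity)
      _ = B * (1 / x ^ 2) := by
          rw [hB, mul_div_assoc, e2]
  have hs2 : Summable (fun j : ℕ => 1 / ((j + i + 2 : ℕ) : ℝ) ^ 2) := by
    have hs : Summable (fun n : ℕ => 1 / (n : ℝ) ^ 2) := hasSum_zeta_two.summable
    have hinj : Function.Injective (fun j : ℕ => j + i + 2) := by
      intro a b hab; simp at hab; omega
    exact hs.comp_injective hinj
  have hs3 : Summable (fun j : ℕ => B * (1 / ((j + i + 2 : ℕ) : ℝ) ^ 2)) := hs2.mul_left B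
  have h6 : |∑' j, f (j + (i + 1))| ≤ ∑' j : ℕ, B * (1 / ((j + i + 2 : ℕ) : ℝ) ^ 2) := by
    have := tsum_of_norm_bounded hs3.hasSum (fun j => by rw [Real.norm_eq_abs]; exact h5 j)
    rwa [Real.norm_eq_abs] at this
  rw [tsum_mul_left] at h6
  calc _ ≤ _ := h6
    _ ≤ B * 2 := mul_le_mul_of_nonneg_left (sum_sq_le i) hB0
    _ = _ := by rw [hB]; ring

/-- the main inequality, in logarithmic form -/
lemma main_log (k S : ℕ) (c0 : ℤ) (c : ℕ → ℤ) (H : ℝ) (hS : 1 ≤ S) (hk : S + 3 ≤ k)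
    (h0 : |(c0 : ℝ)| ≤ H) (hc : ∀ s ∈ Finset.Icc 1 S, |(c s : ℝ)| ≤ H) (hH1 : 1 ≤ H)
    (hrel : HasSum (fun i : ℕ => 1 / ((i + 1 : ℕ) : ℝ) ^ k * T S c0 c i) 0) (i : ℕ)
    (hi : ∀ j < i, T S c0 c j = 0) (hi2 : T S c0 c i ≠ 0) :
    (k : ℝ) ≤ ((i + 2 : ℕ) : ℝ) * (Real.log (2 * H) + 11 * S * ((i + 2 : ℕ) : ℝ)) := by
  have h1 := key k S c0 c H hS hk h0 hc hrel i hi
  have h2 := T_lower S c0 c i hi2
  have hL : (0 : ℝ) < (Nat.lcmUpto i : ℝ) := by exact_mod_cast Nat.lcmUpto_pos i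
  have hx : (0 : ℝ) < ((i + 1 : ℕ) : ℝ) := by positivity
  have hy : (0 : ℝ) < ((i + 2 : ℕ) : ℝ) := by positivity
  have hS1 : (1 : ℝ) ≤ (S : ℝ) := by exact_mod_cast hS
  have h3 : (((i + 2 : ℕ) : ℝ) / ((i + 1 : ℕ) : ℝ)) ^ k ≤ 4 * S * H * ((i + 2 : ℕ) : ℝ) ^ (S + 3) * (Nat.lcmUpto i : ℝ) ^ S := by
    rw [div_pow]
    have e1 : ((i + 2 : ℕ) : ℝ) ^ k / ((i + 1 : ℕ) : ℝ) ^ k ≤
        ((i + 2 : ℕ) : ℝ) ^ k / ((i + 1 : ℕ) : ℝ) ^ k * ((Nat.lcmUpto i : ℝ) ^ S * |T S c0 c i|) := by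
      exact le_mul_of_one_le_right (by positivity) h2
    have e2 : ((i + 2 : ℕ) : ℝ) ^ k / ((i + 1 : ℕ) : ℝ) ^ k * ((Nat.lcmUpto i : ℝ) ^ S * |T S c0 c i|) =
        ((i + 2 : ℕ) : ℝ) ^ k * (Nat.lcmUpto i : ℝ) ^ S * (1 / ((i + 1 : ℕ) : ℝ) ^ k * |T S c0 c i|) := by
      field_simp
    rw [e2] at e1
    refine le_trans e1 ?_
    calc _ ≤ ((i + 2 : ℕ) : ℝ) ^ k * (Nat.lcmUpto i : ℝ) ^ S * (4 * S * H * ((i + 2 : ℕ) : ℝ) ^ (S + 3) / ((i + 2 : ℕ) : ℝ) ^ k) := by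
          apply mul_le_mul_of_nonneg_left h1 (by positivity)
      _ = _ := by field_simp
  have h4 := Real.log_le_log (by positivity) h3
  rw [Real.log_pow, Real.log_mul (by positivity) (by positivity), Real.log_mul (by positivity) (by positivity),
    Real.log_pow, Real.log_pow, ← Chebyshev.psi_eq_log_lcmUpto] at h4
  have h5 : 1 / ((i + 2 : ℕ) : ℝ) ≤ Real.log (((i + 2 : ℕ) : ℝ) / ((i + 1 : ℕ) : ℝ)) := by
    have e1 := Real.one_sub_inv_le_log_of_pos (x := ((i + 2 : ℕ) : ℝ) / ((i + 1 : ℕ) : ℝ)) (by positivity)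
    refine le_trans (le_of_eq ?_) e1
    push_cast
    field_simp
    ring
  have h6 : Real.log (4 * S * H) ≤ Real.log (2 * H) + 2 * S := by
    have e1 : 4 * S * H = (2 * H) * (2 * S) := by ring
    rw [e1, Real.log_mul (by positivity) (by positivity)]
    have e2 := Real.log_le_sub_one_of_pos (x := 2 * (S : ℝ)) (by positivity)
    linarith
  have h7 : Real.log ((i + 2 : ℕ) : ℝ) ≤ ((i + 2 : ℕ) : ℝ) := by
    have := Real.log_le_sub_one_of_pos hy; linarith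
  have h8 : Chebyshev.psi (i : ℝ) ≤ 6 * ((i + 2 : ℕ) : ℝ) := by
    have e1 := Chebyshev.psi_le_const_mul_self (x := (i : ℝ)) (Nat.cast_nonneg i)
    have e2 : Real.log 4 ≤ 2 := by
      have : Real.log 4 = 2 * Real.log 2 := by
        rw [show (4 : ℝ) = 2 ^ 2 by norm_num, Real.log_pow]; norm_num
      rw [this]
      have := Real.log_two_lt_d9
      linarith
    have e3 : (0 : ℝ) ≤ i := Nat.cast_nonneg i
    push_cast
    nlinarith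
  have hy2 : (2 : ℝ) ≤ ((i + 2 : ℕ) : ℝ) := by push_cast; linarith [(Nat.cast_nonneg i : (0:ℝ) ≤ i)]
  have h9 : (k : ℝ) * (1 / ((i + 2 : ℕ) : ℝ)) ≤ Real.log (2 * H) + 11 * S * ((i + 2 : ℕ) : ℝ) := by
    have e1 : (k : ℝ) * (1 / ((i + 2 : ℕ) : ℝ)) ≤ k * Real.log (((i + 2 : ℕ) : ℝ) / ((i + 1 : ℕ) : ℝ)) :=
      mul_le_mul_of_nonneg_left h5 (Nat.cast_nonneg k)
    have e2 : ((S + 3 : ℕ) : ℝ) * Real.log ((i + 2 : ℕ) : ℝ) ≤ 4 * S * ((i + 2 : ℕ) : ℝ) := by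
      have e3 : ((S + 3 : ℕ) : ℝ) ≤ 4 * S := by push_cast; linarith
      exact mul_le_mul e3 h7 (Real.log_nonneg (by linarith)) (by positivity)
    have e4 : (S : ℝ) * Chebyshev.psi (i : ℝ) ≤ S * (6 * ((i + 2 : ℕ) : ℝ)) := mul_le_mul_of_nonneg_left h8 (by positivity)
    have e5 : 2 * (S : ℝ) ≤ S * ((i + 2 : ℕ) : ℝ) := by nlinarith
    nlinarith
  have h10 : (k : ℝ) = ((i + 2 : ℕ) : ℝ) * ((k : ℝ) * (1 / ((i + 2 : ℕ) : ℝ))) := by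
    field_simp
  rw [h10]
  exact mul_le_mul_of_nonneg_left h9 hy.le

end Pool.Agent.Helper43.OD
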