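import Mathlib
import Pool.Agent.Helper43.OD.Height2

set_option autoImplicit false

namespace Pool.Agent.Helper43.OD

open Finset

lemma cheb : ∃ C : ℝ, 1 ≤ C ∧ ∀ n : ℕ, (n : ℝ) ≤ C * (Chebyshev.theta n + 1) := by
  -- log n <= 4 n^(1/4)
  obtain ⟨N0, hN0⟩ : ∃ N0 : ℕ, ∀ n : ℕ, N0 ≤ n →
      Real.log ((n : ℝ) + 1) + 2 * Real.sqrt n * Real.log n ≤ (1 / 4) * n := by
    have l1 : (fun x : ℝ => Real.log (x + 1)) =o[Filter.atTop] (fun x : ℝ => x) := by
      have a1 : (fun x : ℝ => Real.log (x + 1)) =o[Filter.atTop] (fun x : ℝ => x + 1) :=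
        Real.isLittleO_log_id_atTop.comp_tendsto (Filter.tendsto_atTop_add_const_right _ 1 Filter.tendsto_id)
      refine a1.trans_isBigO ?_
      refine Asymptotics.IsBigO.of_bound 2 ?_
      filter_upwards [Filter.eventually_ge_atTop (1 : ℝ)] with x hx
      rw [Real.norm_of_nonneg (by linarith), Real.norm_of_nonneg (by linarith)]
      linarith
    have l2 : (fun x : ℝ => 2 * Real.sqrt x * Real.log x) =o[Filter.atTop] (fun x : ℝ => x) := by
      have a1 : (fun x : ℝ => Real.log x) =o[Filter.atTop] (fun x : ℝ => x ^ (1 / 2 : ℝ)) :=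
        isLittleO_log_rpow_atTop (by norm_num)
      have a2 : (fun x : ℝ => 2 * Real.sqrt x) =O[Filter.atTop] (fun x : ℝ => x ^ (1 / 2 : ℝ)) := by
        refine Asymptotics.IsBigO.of_bound 2 ?_
        filter_upwards [Filter.eventually_ge_atTop (1 : ℝ)] with x hx
        rw [Real.sqrt_eq_rpow, norm_mul]
        simp
      have a3 := a2.mul_isLittleO a1
      refine a3.trans_eventuallyEq ?_
      filter_upwards [Filter.eventually_gt_atTop (0 : ℝ)] with x hx
      rw [← Real.rpow_add hx]; norm_num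
    have l3 := (l1.add l2).bound (c := 1 / 4) (by norm_num)
    have l4 := tendsto_natCast_atTop_atTop (R := ℝ) |>.eventually l3
    obtain ⟨N0, hN0⟩ := Filter.eventually_atTop.1 l4
    refine ⟨N0, fun n hn => ?_⟩
    have := hN0 n hn
    rw [Real.norm_eq_abs, Real.norm_of_nonneg (Nat.cast_nonneg n)] at this
    exact le_trans (le_abs_self _) this
  refine ⟨max 4 N0, le_trans (by norm_num) (le_max_left _ _), fun n => ?_⟩
  have ht : 0 ≤ Chebyshev.theta n := Chebyshev.theta_nonneg n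
  by_cases hn : N0 ≤ n
  · have h1 := Chebyshev.theta_ge n
    have h2 := hN0 n hn
    have h3 : (1 : ℝ) / 2 ≤ Real.log 2 := by
      have := Real.log_two_gt_d9; linarith
    have hn0 : (0 : ℝ) ≤ n := Nat.cast_nonneg n
    have h4 : (n : ℝ) ≤ 4 * Chebyshev.theta n := by nlinarith
    calc (n : ℝ) ≤ 4 * (Chebyshev.theta n + 1) := by linarith
      _ ≤ _ := mul_le_mul_of_nonneg_right (le_max_left _ _) (by linarith)
  · push Not at hn
    have h1 : (n : ℝ) ≤ N0 := by exact_mod_cast hn.le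
    calc (n : ℝ) ≤ (N0 : ℝ) * 1 := by linarith
      _ ≤ max 4 (N0 : ℝ) * (Chebyshev.theta n + 1) := by
        apply mul_le_mul (le_max_right _ _) (by linarith) (by norm_num)
        exact le_trans (by norm_num) (le_max_left _ _)

lemma exists_top (S : ℕ) (c : ℕ → ℤ) (hc : ∃ s ∈ Finset.Icc 1 S, c s ≠ 0) :
    ∃ s0, 1 ≤ s0 ∧ s0 ≤ S ∧ c s0 ≠ 0 ∧ ∀ s, s0 < s → s ≤ S → c s = 0 := by
  classical
  set A := (Finset.Icc 1 S).filter (fun s => c s ≠ 0) with hA
  have hne : A.Nonempty := by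
    obtain ⟨s, hs, hs2⟩ := hc
    exact ⟨s, Finset.mem_filter.2 ⟨hs, hs2⟩⟩
  have h1 := Finset.max'_mem A hne
  have h2 := Finset.mem_filter.1 h1
  have h3 := Finset.mem_Icc.1 h2.1
  refine ⟨A.max' hne, h3.1, h3.2, h2.2, ?_⟩
  intro s hs hs2
  by_contra hcon
  have : s ∈ A := Finset.mem_filter.2 ⟨Finset.mem_Icc.2 ⟨by omega, hs2⟩, hcon⟩
  have := Finset.le_max' A s this
  omega

lemma theta_bound (S : ℕ) (c : ℕ → ℤ) (H : ℝ) (hc0 : ∃ s ∈ Finset.Icc 1 S, c s ≠ 0)
    (hc : ∀ s ∈ Finset.Icc 1 S, |(c s : ℝ)| ≤ H) (i : ℕ) (hi : ∀ j ≤ i, T S 0 c j = 0) :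
    Chebyshev.theta i ≤ Real.log H := by
  obtain ⟨s0, a1, a2, a3, a4⟩ := exists_top S c hc0
  have h1 : primorial i ∣ (c s0).natAbs := by
    unfold primorial
    apply Finset.prod_primes_dvd
    · intro p hp
      exact (Finset.mem_filter.1 hp).2.prime
    · intro p hp
      have b1 := Finset.mem_filter.1 hp
      have b2 : p ≤ i := by
        have := b1.1
        simp at this
        omega
      have := prime_dvd S c p s0 b1.2 a1 a2 a4 (hi p b2)
      exact Int.natCast_dvd.1 this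
  have h2 : primorial i ≤ (c s0).natAbs := Nat.le_of_dvd (Int.natAbs_pos.2 a3) h1
  have h3 : (primorial i : ℝ) ≤ H := by
    have b1 : ((primorial i : ℕ) : ℝ) ≤ ((c s0).natAbs : ℝ) := by exact_mod_cast h2
    have b2 : (((c s0).natAbs : ℕ) : ℝ) = |(c s0 : ℝ)| := by
      rw [Nat.cast_natAbs]; push_cast; rfl
    rw [b2] at b1
    exact le_trans b1 (hc s0 (Finset.mem_Icc.2 ⟨a1, a2⟩))
  rw [Chebyshev.theta_eq_log_primorial, Nat.floor_natCast]
  exact Real.log_le_log (by exact_mod_cast primorial_pos i) h3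

/-- for fixed S some coefficient N <= g(S) does not vanish -/
lemma exists_g (S : ℕ) : ∃ g : ℕ, ∀ c : ℕ → ℤ, (∃ s ∈ Finset.Icc 1 S, c s ≠ 0) → ∃ j ≤ g, T S 0 c j ≠ 0 := by
  classical
  let L : ℕ → ((Fin (S + 1) → ℝ) →ₗ[ℝ] ℝ) := fun j =>
    ∑ s : Fin (S + 1), (if 1 ≤ (s : ℕ) then (((j + 1 : ℕ) : ℝ) ^ (s : ℕ) * h j s) else 0) • LinearMap.proj s
  let W : ℕ → Submodule ℝ (Fin (S + 1) → ℝ) := fun m => ⨅ j : Fin (m + 1), LinearMap.ker (L j)
  have hanti : Antitone W := by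
    intro a b hab
    intro v hv
    rw [Submodule.mem_iInf] at hv ⊢
    intro j
    exact hv ⟨j, by have := j.2; omega⟩
  let f : ℕ →o (Submodule ℝ (Fin (S + 1) → ℝ))ᵒᵈ := ⟨fun m => OrderDual.toDual (W m), fun a b hab => hanti hab⟩
  obtain ⟨g, hg⟩ := IsArtinian.monotone_stabilizes f
  refine ⟨g, fun c hc => ?_⟩
  by_contra hcon
  push Not at hcon
  have hL : ∀ j, L j (fun s => (c s : ℝ)) = T S 0 c j := by
    intro j
    simp only [L, LinearMap.sum_apply, LinearMap.smul_apply, LinearMap.proj_apply, smul_eq_mul]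
    unfold T
    rw [Int.cast_zero, sub_zero]
    rw [Fin.sum_univ_eq_sum_range (fun s => (if 1 ≤ s then (((j + 1 : ℕ) : ℝ) ^ s * h j s) else 0) * (c s : ℝ)) (S + 1)]
    symm
    have hsub : Finset.Icc 1 S ⊆ Finset.range (S + 1) := by
      intro s hs
      have := Finset.mem_Icc.1 hs
      rw [Finset.mem_range]; omega
    rw [← Finset.sum_subset hsub]
    · apply Finset.sum_congr rfl
      intro s hs
      rw [if_pos (Finset.mem_Icc.1 hs).1]; ring
    · intro s hs hs2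
      have h0 : ¬ (1 ≤ s) := by
        intro h1
        exact hs2 (Finset.mem_Icc.2 ⟨h1, by have := Finset.mem_range.1 hs; omega⟩)
      rw [if_neg h0, zero_mul]
  have hmem : (fun s : Fin (S + 1) => (c s : ℝ)) ∈ W g := by
    rw [Submodule.mem_iInf]
    intro j
    rw [LinearMap.mem_ker, hL]
    exact hcon j (by have := j.2; omega)
  have hall : ∀ j, T S 0 c j = 0 := by
    intro j
    have h1 : f g = f (max g j) := hg (max g j) (le_max_left _ _)
    have h2 : W g = W (max g j) := h1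
    rw [h2, Submodule.mem_iInf] at hmem
    have h3 := hmem ⟨j, by have := le_max_right g j; omega⟩
    rw [LinearMap.mem_ker, hL] at h3
    exact h3
  obtain ⟨s0, a1, a2, a3, a4⟩ := exists_top S c hc
  obtain ⟨p, hp1, hp2⟩ := Nat.exists_infinite_primes ((c s0).natAbs + 1)
  have h5 := prime_dvd S c p s0 hp2 a1 a2 a4 (hall p)
  have h6 : p ∣ (c s0).natAbs := Int.natCast_dvd.1 h5
  have h7 := Nat.le_of_dvd (Int.natAbs_pos.2 a3) h6
  omega

end Pool.Agent.Helper43.OD
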