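import Mathlib
import Pool.Agent.Helper43.OD.Height3

set_option autoImplicit false

namespace Pool.Agent.Helper43.OD

open Finset

lemma rel_hasSum (k S : ℕ) (c0 : ℤ) (c : ℕ → ℤ) (hk : S + 2 ≤ k)
    (hrel : ∑ s ∈ Finset.Icc 1 S, (c s : ℝ) * ∑' p : ℕ × ℕ,
        (1 : ℝ) / ((((p.1 + p.2 + 2 : ℕ) : ℝ) ^ (k - s)) * (((p.2 + 1 : ℕ) : ℝ) ^ s)) =
      c0 * ∑' n : ℕ, (1 : ℝ) / ((n + 1 : ℕ) : ℝ) ^ k) :
    HasSum (fun i : ℕ => 1 / ((i + 1 : ℕ) : ℝ) ^ k * T S c0 c i) 0 := by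
  have hz : Summable (fun n : ℕ => (1 : ℝ) / ((n + 1 : ℕ) : ℝ) ^ k) := by
    have h1 : Summable (fun n : ℕ => (1 : ℝ) / (n : ℝ) ^ k) := Real.summable_one_div_nat_pow.2 (by omega)
    exact h1.comp_injective (add_left_injective 1)
  have h1 : HasSum (fun n : ℕ => (c0 : ℝ) * (1 / ((n + 1 : ℕ) : ℝ) ^ k))
      (c0 * ∑' n : ℕ, (1 : ℝ) / ((n + 1 : ℕ) : ℝ) ^ k) := hz.hasSum.mul_left _
  have h2 : HasSum (fun i : ℕ => ∑ s ∈ Finset.Icc 1 S, (c s : ℝ) * (1 / ((i + 1 : ℕ) : ℝ) ^ (k - s) * h i s))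
      (∑ s ∈ Finset.Icc 1 S, (c s : ℝ) * ∑' p : ℕ × ℕ,
        (1 : ℝ) / ((((p.1 + p.2 + 2 : ℕ) : ℝ) ^ (k - s)) * (((p.2 + 1 : ℕ) : ℝ) ^ s))) := by
    apply hasSum_sum
    intro s hs
    have hs' := Finset.mem_Icc.1 hs
    exact (dz_eq (k - s) s (by omega) hs'.1).mul_left _
  have h3 := h2.sub h1
  rw [hrel, sub_self] at h3
  refine h3.congr_fun ?_
  intro i
  unfold T
  rw [mul_sub, Finset.mul_sum]
  congr 1
  · apply Finset.sum_congr rfl
    intro s hs
    have hs' := Finset.mem_Icc.1 hs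
    have hx : ((i + 1 : ℕ) : ℝ) ≠ 0 := by positivity
    have e1 : ((i + 1 : ℕ) : ℝ) ^ k = ((i + 1 : ℕ) : ℝ) ^ (k - s) * ((i + 1 : ℕ) : ℝ) ^ s := by
      rw [← pow_add]; congr 1; omega
    rw [e1]
    field_simp
  · ring

theorem height_bound : ∃ (C : ℝ) (D : ℕ → ℝ), ∀ (k S : ℕ) (c0 : ℤ) (c : ℕ → ℤ) (H : ℝ),
    1 ≤ S → S + 2 ≤ k → (c0 ≠ 0 ∨ ∃ s ∈ Finset.Icc 1 S, c s ≠ 0) →
    |(c0 : ℝ)| ≤ H → (∀ s ∈ Finset.Icc 1 S, |(c s : ℝ)| ≤ H) →
    ∑ s ∈ Finset.Icc 1 S, (c s : ℝ) * ∑' p : ℕ × ℕ,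
        (1 : ℝ) / ((((p.1 + p.2 + 2 : ℕ) : ℝ) ^ (k - s)) * (((p.2 + 1 : ℕ) : ℝ) ^ s)) =
      c0 * ∑' n : ℕ, (1 : ℝ) / ((n + 1 : ℕ) : ℝ) ^ k →
    (k : ℝ) ≤ C * S * Real.log (2 * H) ^ 2 ∧ (k : ℝ) ≤ D S * Real.log (2 * H) := by
  obtain ⟨C1, hC1, hC1'⟩ := cheb
  choose g hg using exists_g
  set C2 : ℝ := 2 * (C1 + 3) with hC2
  refine ⟨max 7 (C2 * (1 + 11 * C2)), fun S => 2 * ((S : ℝ) + 2) + ((g S : ℝ) + 2) * (1 + 22 * S * ((g S : ℝ) + 2)), ?_⟩
  intro k S c0 c H hS hk hne h0 hc hrel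
  have hH1 : 1 ≤ H := by
    rcases hne with h | ⟨s, hs, h⟩
    · have := Int.one_le_abs h
      have h2 : (1 : ℝ) ≤ |(c0 : ℝ)| := by exact_mod_cast this
      linarith
    · have := Int.one_le_abs h
      have h2 : (1 : ℝ) ≤ |(c s : ℝ)| := by exact_mod_cast this
      linarith [hc s hs]
  have hS1 : (1 : ℝ) ≤ (S : ℝ) := by exact_mod_cast hS
  have hl2 : (1 : ℝ) / 2 ≤ Real.log 2 := by have := Real.log_two_gt_d9; linarith
  have hl2' : (0.69 : ℝ) ≤ Real.log 2 := by have := Real.log_two_gt_d9; linarith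
  have hlH : 0 ≤ Real.log H := Real.log_nonneg hH1
  have hell : Real.log (2 * H) = Real.log 2 + Real.log H := Real.log_mul (by norm_num) (by linarith)
  set l : ℝ := Real.log (2 * H) with hl
  have hl0 : (0.69 : ℝ) ≤ l := by linarith
  have hg0 : (0 : ℝ) ≤ (g S : ℝ) := Nat.cast_nonneg _
  have hR0 : 0 ≤ ((g S : ℝ) + 2) * (1 + 22 * S * ((g S : ℝ) + 2)) := by positivity
  have hL0 : 0 ≤ 2 * ((S : ℝ) + 2) := by positivity
  by_cases hk3 : S + 3 ≤ k
  swap
  · have hk2 : k = S + 2 := by omega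
    have hkr : (k : ℝ) = S + 2 := by rw [hk2]; push_cast; ring
    constructor
    · rw [hkr]
      have e1 : (3 : ℝ) ≤ 7 * l ^ 2 := by nlinarith
      calc (S : ℝ) + 2 ≤ 3 * S := by linarith
        _ ≤ (7 * l ^ 2) * S := mul_le_mul_of_nonneg_right e1 (by linarith)
        _ = 7 * S * l ^ 2 := by ring
        _ ≤ _ := by
          apply mul_le_mul_of_nonneg_right _ (by positivity)
          exact mul_le_mul_of_nonneg_right (le_max_left _ _) (by linarith)
    · rw [hkr]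
      have e1 : (1 : ℝ) ≤ 2 * l := by linarith
      calc (S : ℝ) + 2 = ((S : ℝ) + 2) * 1 := by ring
        _ ≤ ((S : ℝ) + 2) * (2 * l) := mul_le_mul_of_nonneg_left e1 (by linarith)
        _ = (2 * ((S : ℝ) + 2)) * l := by ring
        _ ≤ _ := mul_le_mul_of_nonneg_right (by linarith) (by linarith)
  have hsum := rel_hasSum k S c0 c hk hrel
  -- the first nonvanishing coefficient
  have hex : ∃ i, T S c0 c i ≠ 0 := by
    by_cases hc0 : c0 = 0
    · subst hc0
      have hne' : ∃ s ∈ Finset.Icc 1 S, c s ≠ 0 := by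
        rcases hne with h | h
        · exact absurd rfl h
        · exact h
      obtain ⟨j, _, hj⟩ := hg S c hne'
      exact ⟨j, hj⟩
    · refine ⟨0, ?_⟩
      rw [T_zero]
      simpa using hc0
  classical
  set i := Nat.find hex with hi
  have hi1 : T S c0 c i ≠ 0 := Nat.find_spec hex
  have hi2 : ∀ j < i, T S c0 c j = 0 := by
    intro j hj
    have := Nat.find_min hex hj
    push Not at this
    exact this
  have hmain := main_log k S c0 c H hS hk3 h0 hc hH1 hsum i hi2 hi1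
  rw [← hl] at hmain
  -- bounds for i
  have hb : ((i + 2 : ℕ) : ℝ) ≤ C2 * l ∧ ((i + 2 : ℕ) : ℝ) ≤ (g S : ℝ) + 2 := by
    by_cases hc0 : c0 = 0
    · subst hc0
      have hne' : ∃ s ∈ Finset.Icc 1 S, c s ≠ 0 := by
        rcases hne with h | h
        · exact absurd rfl h
        · exact h
      obtain ⟨j, hj1, hj⟩ := hg S c hne'
      have hij : i ≤ g S := le_trans (Nat.find_min' hex hj) hj1
      refine ⟨?_, ?_⟩
      · have hi0 : 1 ≤ i := by
          by_contra hcon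
          have : i = 0 := by omega
          rw [this, T_zero] at hi1
          simp at hi1
        have ht := theta_bound S c H hne' hc (i - 1) (fun j hj => hi2 j (by omega))
        have h2 := hC1' (i - 1)
        have h3 : ((i - 1 : ℕ) : ℝ) = (i : ℝ) - 1 := by
          rw [Nat.cast_sub hi0]; norm_num
        rw [h3] at h2 ht
        have h4 : (i : ℝ) - 1 ≤ C1 * (Real.log H + 1) := by
          refine le_trans h2 ?_
          apply mul_le_mul_of_nonneg_left _ (by linarith)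
          linarith
        have h5 : Real.log H + 1 ≤ 2 * l := by linarith
        have h6 : (i : ℝ) - 1 ≤ C1 * (2 * l) := le_trans h4 (mul_le_mul_of_nonneg_left h5 (by linarith))
        push_cast
        rw [hC2]
        nlinarith
      · push_cast
        have : (i : ℝ) ≤ (g S : ℝ) := by exact_mod_cast hij
        linarith
    · have hi0 : i = 0 := by
        rw [hi, Nat.find_eq_zero, T_zero]
        simpa using hc0
      rw [hi0]
      push_cast
      refine ⟨?_, by linarith⟩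
      rw [hC2]
      nlinarith
  have hm0 : (0 : ℝ) ≤ ((i + 2 : ℕ) : ℝ) := Nat.cast_nonneg _
  have hC20 : 0 ≤ C2 := by rw [hC2]; linarith
  constructor
  · calc (k : ℝ) ≤ ((i + 2 : ℕ) : ℝ) * (l + 11 * S * ((i + 2 : ℕ) : ℝ)) := hmain
      _ ≤ (C2 * l) * (l + 11 * S * (C2 * l)) := by
          apply mul_le_mul hb.1 _ (by positivity) (by positivity)
          have := mul_le_mul_of_nonneg_left hb.1 (by positivity : (0 : ℝ) ≤ 11 * S)
          linarith
      _ = C2 * (1 + 11 * C2 * S) * l ^ 2 := by ring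
      _ ≤ C2 * (S + 11 * C2 * S) * l ^ 2 := by
          apply mul_le_mul_of_nonneg_right _ (by positivity)
          apply mul_le_mul_of_nonneg_left _ hC20
          linarith
      _ = (C2 * (1 + 11 * C2)) * S * l ^ 2 := by ring
      _ ≤ _ := by
          apply mul_le_mul_of_nonneg_right _ (by positivity)
          exact mul_le_mul_of_nonneg_right (le_max_right _ _) (by linarith)
  · set G : ℝ := (g S : ℝ) + 2 with hG
    have hG0 : 0 ≤ G := by positivity
    calc (k : ℝ) ≤ ((i + 2 : ℕ) : ℝ) * (l + 11 * S * ((i + 2 : ℕ) : ℝ)) := hmain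
      _ ≤ G * (l + 11 * S * G) := by
          apply mul_le_mul hb.2 _ (by positivity) hG0
          have := mul_le_mul_of_nonneg_left hb.2 (by positivity : (0 : ℝ) ≤ 11 * S)
          linarith
      _ ≤ G * (l + 11 * S * G * (2 * l)) := by
          apply mul_le_mul_of_nonneg_left _ hG0
          have : 11 * S * G * 1 ≤ 11 * S * G * (2 * l) :=
            mul_le_mul_of_nonneg_left (by linarith) (by positivity)
          linarith
      _ = (G * (1 + 22 * S * G)) * l := by ring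
      _ ≤ _ := mul_le_mul_of_nonneg_right (by linarith) (by linarith)

end Pool.Agent.Helper43.OD
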