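import Mathlib
import Pool.Agent.Helper43.OD.Height4

set_option autoImplicit false

namespace Pool.Agent.Helper43.OD

open Finset

/-- weight of the pair (m, n) = (a + b + 1, b + 1) -/
def wN (u w : ℕ) (q : ℕ × ℕ) : ℕ := (q.1 + q.2 + 1) ^ u * (q.2 + 1) ^ w

/-- the denominator m^r n^(k-r) -/
def wD (k r : ℕ) (q : ℕ × ℕ) : ℕ := (q.1 + q.2 + 1) ^ r * (q.2 + 1) ^ (k - r)

/-- the general term -/
noncomputable def wG (k : ℕ) (W : Finset ℕ) (c0 : ℤ) (c : ℕ → ℤ) (q : ℕ × ℕ) : ℝ :=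
  if q.1 = 0 then - (c0 : ℝ) / (wD k k q : ℝ) else ∑ r ∈ W, (c r : ℝ) / (wD k r q : ℝ)

/-- the pairs of weight N -/
def wK (u w N : ℕ) : Finset (ℕ × ℕ) := (Finset.range N ×ˢ Finset.range N).filter (fun q => wN u w q = N)

lemma wN_pos (u w : ℕ) (q : ℕ × ℕ) : 0 < wN u w q := by unfold wN; positivity

lemma wD_pos (k r : ℕ) (q : ℕ × ℕ) : 0 < wD k r q := by unfold wD; positivity

lemma lt_wN (u w : ℕ) (hu : 1 ≤ u) (q : ℕ × ℕ) : q.1 + q.2 + 1 ≤ wN u w q := by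
  unfold wN
  calc q.1 + q.2 + 1 = (q.1 + q.2 + 1) ^ 1 * 1 := by ring
    _ ≤ (q.1 + q.2 + 1) ^ u * (q.2 + 1) ^ w :=
      Nat.mul_le_mul (Nat.pow_le_pow_right (by omega) hu) (Nat.one_le_pow _ _ (by omega))

lemma mem_wK (u w N : ℕ) (hu : 1 ≤ u) (q : ℕ × ℕ) : q ∈ wK u w N ↔ wN u w q = N := by
  unfold wK
  rw [Finset.mem_filter, Finset.mem_product, Finset.mem_range, Finset.mem_range]
  constructor
  · exact fun h => h.2
  · intro h
    have := lt_wN u w hu q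
    exact ⟨⟨by omega, by omega⟩, h⟩

/-- the window condition -/
def InWin (u v k S r : ℕ) : Prop :=
  2 ≤ r ∧ r + 1 ≤ k ∧ |((v : ℤ) * r) - u * k| ≤ S

lemma expo (u w k S r : ℕ) (hu : 1 ≤ u) (hw : 1 ≤ w) (hS : S ≤ k) (hr : InWin u (u + w) k S r) :
    u * (k - S) ≤ (u + w) * r ∧ w * (k - S) ≤ (u + w) * (k - r) ∧
    (u + w) * r ≤ u * (k + S) ∧ (u + w) * (k - r) ≤ w * (k + S) := by
  obtain ⟨h1, h2, h3⟩ := hr
  rw [abs_le] at h3
  obtain ⟨x, rfl⟩ : ∃ x, k = x + S := ⟨k - S, by omega⟩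
  obtain ⟨y, hy⟩ : ∃ y, x + S = y + r := ⟨x + S - r, by omega⟩
  have e1 : x + S - S = x := by omega
  have e2 : x + S - r = y := by omega
  rw [e1, e2]
  push_cast at h3
  have hyz : (x : ℤ) + S = y + r := by exact_mod_cast hy
  obtain ⟨h3a, h3b⟩ := h3
  have hu' : (1 : ℤ) ≤ u := by exact_mod_cast hu
  have hw' : (1 : ℤ) ≤ w := by exact_mod_cast hw
  have hS' : (0 : ℤ) ≤ S := by positivity
  have k1 : (S : ℤ) ≤ u * S := by nlinarith
  have k2 : (S : ℤ) ≤ w * S := by nlinarith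
  have hy' : (y : ℤ) = x + S - r := by linarith
  refine ⟨?_, ?_, ?_, ?_⟩
  · have : (u : ℤ) * x ≤ (u + w) * r := by nlinarith
    exact_mod_cast this
  · have : (w : ℤ) * x ≤ (u + w) * y := by rw [hy']; nlinarith
    exact_mod_cast this
  · have : ((u : ℤ) + w) * r ≤ u * (x + S + S) := by nlinarith
    exact_mod_cast this
  · have : ((u : ℤ) + w) * y ≤ w * (x + S + S) := by rw [hy']; nlinarith
    exact_mod_cast this

lemma wD_pow (k r v : ℕ) (q : ℕ × ℕ) :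
    wD k r q ^ v = (q.1 + q.2 + 1) ^ (v * r) * (q.2 + 1) ^ (v * (k - r)) := by
  unfold wD
  rw [mul_pow, ← pow_mul, ← pow_mul, mul_comm r v, mul_comm (k - r) v]

lemma wN_pow (u w j : ℕ) (q : ℕ × ℕ) :
    wN u w q ^ j = (q.1 + q.2 + 1) ^ (u * j) * (q.2 + 1) ^ (w * j) := by
  unfold wN
  rw [mul_pow, ← pow_mul, ← pow_mul]

lemma dvd_upper (u w k S r : ℕ) (hu : 1 ≤ u) (hw : 1 ≤ w) (hS : S ≤ k) (hr : InWin u (u + w) k S r)
    (q : ℕ × ℕ) : wD k r q ^ (u + w) ∣ wN u w q ^ (k + S) := by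
  obtain ⟨_, _, h3, h4⟩ := expo u w k S r hu hw hS hr
  rw [wD_pow, wN_pow]
  exact Nat.mul_dvd_mul (pow_dvd_pow _ h3) (pow_dvd_pow _ h4)

lemma dvd_lower (u w k S r : ℕ) (hu : 1 ≤ u) (hw : 1 ≤ w) (hS : S ≤ k) (hr : InWin u (u + w) k S r)
    (q : ℕ × ℕ) : wN u w q ^ (k - S) ∣ wD k r q ^ (u + w) := by
  obtain ⟨h1, h2, _, _⟩ := expo u w k S r hu hw hS hr
  rw [wD_pow, wN_pow]
  exact Nat.mul_dvd_mul (pow_dvd_pow _ h1) (pow_dvd_pow _ h2)

/-- diagonal pairs -/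
lemma diag_pow (u w k : ℕ) (q : ℕ × ℕ) (hq : q.1 = 0) : wD k k q ^ (u + w) = wN u w q ^ k := by
  unfold wD wN
  rw [hq, Nat.sub_self, pow_zero, mul_one, zero_add, ← pow_add, ← pow_mul, ← pow_mul, mul_comm]

/-- a common multiple of finitely many numbers whose v-th powers divide X -/
lemma lcm_pow_dvd (A : Finset ℕ) (v X : ℕ) (h : ∀ a ∈ A, a ^ v ∣ X) : (A.lcm id) ^ v ∣ X := by
  classical
  induction A using Finset.induction_on with
  | empty => simp
  | insert a A ha ih =>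
    rw [Finset.lcm_insert]
    have h1 : a ^ v ∣ X := h a (Finset.mem_insert_self _ _)
    have h2 : (A.lcm id) ^ v ∣ X := ih (fun b hb => h b (Finset.mem_insert_of_mem hb))
    have h3 : (Nat.lcm a (A.lcm id)) ^ v = Nat.lcm (a ^ v) ((A.lcm id) ^ v) := Nat.pow_lcm_pow.symm
    change (Nat.lcm a (A.lcm id)) ^ v ∣ X
    rw [h3]
    exact Nat.lcm_dvd h1 h2

/-- cluster sums -/
noncomputable def wB (u w k : ℕ) (W : Finset ℕ) (c0 : ℤ) (c : ℕ → ℤ) (N : ℕ) : ℝ :=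
  ∑ q ∈ wK u w N, wG k W c0 c q

lemma wB_lower (u w k S : ℕ) (W : Finset ℕ) (c0 : ℤ) (c : ℕ → ℤ) (hu : 1 ≤ u) (hw : 1 ≤ w) (hS : S ≤ k)
    (hW : ∀ r ∈ W, InWin u (u + w) k S r) (N : ℕ) (hB : wB u w k W c0 c N ≠ 0) :
    ∃ M : ℕ, 0 < M ∧ M ^ (u + w) ≤ N ^ (k + S) ∧ 1 ≤ M * |wB u w k W c0 c N| := by
  classical
  set A1 : Finset ℕ := ((wK u w N) ×ˢ W).image (fun x => wD k x.2 x.1) with hA1
  set A2 : Finset ℕ := ((wK u w N).filter (fun q => q.1 = 0)).image (fun q => wD k k q) with hA2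
  set M : ℕ := (A1 ∪ A2).lcm id with hM
  have hdiv : ∀ a ∈ A1 ∪ A2, a ^ (u + w) ∣ N ^ (k + S) := by
    intro a ha
    rcases Finset.mem_union.1 ha with ha | ha
    · obtain ⟨x, hx, rfl⟩ := Finset.mem_image.1 ha
      have hx' := Finset.mem_product.1 hx
      have h1 := dvd_upper u w k S x.2 hu hw hS (hW _ hx'.2) x.1
      rwa [(mem_wK u w N hu x.1).1 hx'.1] at h1
    · obtain ⟨q, hq, rfl⟩ := Finset.mem_image.1 ha
      have hq' := Finset.mem_filter.1 hq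
      have h1 := diag_pow u w k q hq'.2
      rw [(mem_wK u w N hu q).1 hq'.1] at h1
      rw [h1]
      exact pow_dvd_pow _ (by omega)
  have hMdvd : M ^ (u + w) ∣ N ^ (k + S) := lcm_pow_dvd _ _ _ hdiv
  have hNe : (wK u w N).Nonempty := by
    by_contra hcon
    rw [Finset.not_nonempty_iff_eq_empty] at hcon
    apply hB
    unfold wB
    rw [hcon, Finset.sum_empty]
  have hN : 0 < N := by
    obtain ⟨q, hq⟩ := hNe
    rw [← (mem_wK u w N hu q).1 hq]
    exact wN_pos u w q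
  have hMpos : 0 < M := by
    rw [Nat.pos_iff_ne_zero]
    intro h0
    rw [h0, zero_pow (by omega)] at hMdvd
    have := Nat.eq_zero_of_zero_dvd hMdvd
    have h2 : 0 < N ^ (k + S) := by positivity
    omega
  refine ⟨M, hMpos, Nat.le_of_dvd (by positivity) hMdvd, ?_⟩
  -- M * B is an integer
  have hint : ∃ z : ℤ, (M : ℝ) * wB u w k W c0 c N = z := by
    unfold wB
    rw [Finset.mul_sum]
    have hq : ∀ q ∈ wK u w N, ∃ z : ℤ, (M : ℝ) * wG k W c0 c q = z := by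
      intro q hq
      unfold wG
      split_ifs with h0
      · have hd : wD k k q ∣ M := by
          apply Finset.dvd_lcm (f := id)
          exact Finset.mem_union_right _ (Finset.mem_image.2 ⟨q, Finset.mem_filter.2 ⟨hq, h0⟩, rfl⟩)
        obtain ⟨t, ht⟩ := hd
        refine ⟨- c0 * t, ?_⟩
        have hne : ((wD k k q : ℕ) : ℝ) ≠ 0 := by exact_mod_cast (wD_pos k k q).ne'
        rw [ht]
        push_cast
        field_simp
      · have hr : ∀ r ∈ W, ∃ z : ℤ, (M : ℝ) * ((c r : ℝ) / (wD k r q : ℝ)) = z := by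
          intro r hr
          have hd : wD k r q ∣ M := by
            apply Finset.dvd_lcm (f := id)
            exact Finset.mem_union_left _ (Finset.mem_image.2 ⟨(q, r), Finset.mem_product.2 ⟨hq, hr⟩, rfl⟩)
          obtain ⟨t, ht⟩ := hd
          refine ⟨c r * t, ?_⟩
          have hne : ((wD k r q : ℕ) : ℝ) ≠ 0 := by exact_mod_cast (wD_pos k r q).ne'
          rw [ht]
          push_cast
          field_simp
        choose! z hz using hr
        refine ⟨∑ r ∈ W, z r, ?_⟩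
        rw [Finset.mul_sum]
        push_cast
        exact Finset.sum_congr rfl hz
    choose! z hz using hq
    refine ⟨∑ q ∈ wK u w N, z q, ?_⟩
    push_cast
    exact Finset.sum_congr rfl hz
  obtain ⟨z, hz⟩ := hint
  have hM' : (0 : ℝ) < M := by exact_mod_cast hMpos
  have hz0 : z ≠ 0 := by
    intro h0
    rw [h0] at hz
    push_cast at hz
    rcases mul_eq_zero.1 hz with h | h
    · linarith
    · exact hB h
  have h1 : (1 : ℝ) ≤ |(z : ℝ)| := by exact_mod_cast Int.one_le_abs hz0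
  rw [← hz, abs_mul, abs_of_pos hM'] at h1
  exact h1

end Pool.Agent.Helper43.OD
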