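import Mathlib
import Pool.Agent.Helper43.OD.Win1

set_option autoImplicit false

namespace Pool.Agent.Helper43.OD

open Finset

/-- the comparison series -/
noncomputable def wb (q : ℕ × ℕ) : ℝ := (1 / ((q.1 + 1 : ℕ) : ℝ) ^ 2) * (1 / ((q.2 + 1 : ℕ) : ℝ) ^ 2)

lemma wb_nonneg (q : ℕ × ℕ) : 0 ≤ wb q := by unfold wb; positivity

lemma wb_sum : Summable wb ∧ ∑' q, wb q ≤ 4 := by
  have hs : Summable (fun n : ℕ => 1 / (n : ℝ) ^ 2) := hasSum_zeta_two.summable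
  have h1 : Summable (fun n : ℕ => 1 / ((n + 1 : ℕ) : ℝ) ^ 2) := hs.comp_injective (add_left_injective 1)
  have h2 : ∑' n : ℕ, 1 / ((n + 1 : ℕ) : ℝ) ^ 2 ≤ 2 := by
    have a1 : ∑' j : ℕ, 1 / ((j + 1 : ℕ) : ℝ) ^ 2 ≤ ∑' n : ℕ, 1 / (n : ℝ) ^ 2 :=
      tsum_comp_le_tsum_of_inj hs (fun n => by positivity) (add_left_injective 1)
    rw [hasSum_zeta_two.tsum_eq] at a1
    have h2 : Real.pi < 3.15 := Real.pi_lt_d2
    have h3 : 0 < Real.pi := Real.pi_pos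
    nlinarith
  have h0 : 0 ≤ ∑' n : ℕ, 1 / ((n + 1 : ℕ) : ℝ) ^ 2 := tsum_nonneg (fun n => by positivity)
  have hsum : Summable (fun q : ℕ × ℕ => (1 / ((q.1 + 1 : ℕ) : ℝ) ^ 2) * (1 / ((q.2 + 1 : ℕ) : ℝ) ^ 2)) :=
    h1.mul_of_nonneg h1 (fun n => by positivity) (fun n => by positivity)
  refine ⟨hsum, ?_⟩
  have h4 := h1.tsum_mul_tsum h1 hsum
  have h5 : ∑' q, wb q = (∑' n : ℕ, 1 / ((n + 1 : ℕ) : ℝ) ^ 2) * (∑' n : ℕ, 1 / ((n + 1 : ℕ) : ℝ) ^ 2) := h4.symm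
  rw [h5]
  nlinarith

lemma mul_le_wN (u w : ℕ) (hu : 1 ≤ u) (hw : 1 ≤ w) (q : ℕ × ℕ) : (q.1 + 1) * (q.2 + 1) ≤ wN u w q := by
  unfold wN
  apply Nat.mul_le_mul
  · calc q.1 + 1 ≤ q.1 + q.2 + 1 := by omega
      _ = (q.1 + q.2 + 1) ^ 1 := (pow_one _).symm
      _ ≤ _ := Nat.pow_le_pow_right (by omega) hu
  · calc q.2 + 1 = (q.2 + 1) ^ 1 := (pow_one _).symm
      _ ≤ _ := Nat.pow_le_pow_right (by omega) hw

lemma D_ge (u w k S D N0 : ℕ) (q : ℕ × ℕ) (hu : 1 ≤ u) (hw : 1 ≤ w) (hk : S + 2 * (u + w) ≤ k)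
    (hD : wN u w q ^ (k - S) ≤ D ^ (u + w)) (hN : N0 + 1 ≤ wN u w q) (y : ℝ)
    (hy : y ^ (u + w) = ((N0 + 1 : ℕ) : ℝ) ^ (k - S - 2 * (u + w))) :
    y * (((q.1 + 1 : ℕ) : ℝ) ^ 2 * ((q.2 + 1 : ℕ) : ℝ) ^ 2) ≤ (D : ℝ) := by
  have hv : u + w ≠ 0 := by omega
  have h1 : (y * (((q.1 + 1 : ℕ) : ℝ) ^ 2 * ((q.2 + 1 : ℕ) : ℝ) ^ 2)) ^ (u + w) ≤ (D : ℝ) ^ (u + w) := by
    have e1 : ((((q.1 + 1) * (q.2 + 1)) ^ 2) ^ (u + w)) * (N0 + 1) ^ (k - S - 2 * (u + w)) ≤ D ^ (u + w) := by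
      have e2 := mul_le_wN u w hu hw q
      calc ((((q.1 + 1) * (q.2 + 1)) ^ 2) ^ (u + w)) * (N0 + 1) ^ (k - S - 2 * (u + w))
          ≤ (((wN u w q) ^ 2) ^ (u + w)) * (wN u w q) ^ (k - S - 2 * (u + w)) :=
            Nat.mul_le_mul (Nat.pow_le_pow_left (Nat.pow_le_pow_left e2 2) _) (Nat.pow_le_pow_left hN _)
        _ = wN u w q ^ (k - S) := by
            rw [← pow_mul, ← pow_add]; congr 1; omega
        _ ≤ _ := hD
    have e3 : ((((((q.1 + 1) * (q.2 + 1)) ^ 2) ^ (u + w)) * (N0 + 1) ^ (k - S - 2 * (u + w)) : ℕ) : ℝ) ≤ ((D ^ (u + w) : ℕ) : ℝ) := by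
      exact_mod_cast e1
    rw [mul_pow, hy]
    push_cast at e3 ⊢
    refine le_trans (le_of_eq ?_) e3
    ring
  exact le_of_pow_le_pow_left₀ hv (by positivity) h1

lemma wG_bound (u w k S N0 : ℕ) (W : Finset ℕ) (c0 : ℤ) (c : ℕ → ℤ) (H : ℝ) (hu : 1 ≤ u) (hw : 1 ≤ w)
    (hk : S + 2 * (u + w) ≤ k) (hW : ∀ r ∈ W, InWin u (u + w) k S r)
    (h0 : |(c0 : ℝ)| ≤ H) (hc : ∀ r ∈ W, |(c r : ℝ)| ≤ H) (y : ℝ) (hy0 : 0 < y)
    (hy : y ^ (u + w) = ((N0 + 1 : ℕ) : ℝ) ^ (k - S - 2 * (u + w))) (q : ℕ × ℕ) (hN : N0 + 1 ≤ wN u w q) :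
    |wG k W c0 c q| ≤ (H * (W.card + 1) / y) * wb q := by
  have hH : 0 ≤ H := le_trans (abs_nonneg _) h0
  set X : ℝ := ((q.1 + 1 : ℕ) : ℝ) ^ 2 * ((q.2 + 1 : ℕ) : ℝ) ^ 2 with hX
  have hX0 : 0 < X := by positivity
  have hwb : wb q = 1 / X := by
    unfold wb; rw [hX]; rw [one_div_mul_one_div]
  have hone : ∀ D : ℕ, 0 < D → wN u w q ^ (k - S) ≤ D ^ (u + w) → 1 / (D : ℝ) ≤ 1 / (y * X) := by
    intro D hD0 hD
    have := D_ge u w k S D N0 q hu hw hk hD hN y hy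
    exact one_div_le_one_div_of_le (by positivity) this
  have hcard : (0 : ℝ) ≤ W.card := Nat.cast_nonneg _
  unfold wG
  split_ifs with hq
  · have h1 : wN u w q ^ (k - S) ≤ wD k k q ^ (u + w) := by
      rw [diag_pow u w k q hq]
      exact Nat.pow_le_pow_right (wN_pos u w q) (by omega)
    have h2 := hone _ (wD_pos k k q) h1
    rw [abs_div, abs_neg, Nat.abs_cast, hwb]
    calc |(c0 : ℝ)| / (wD k k q : ℝ) = |(c0 : ℝ)| * (1 / (wD k k q : ℝ)) := by ring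
      _ ≤ H * (1 / (y * X)) := mul_le_mul h0 h2 (by positivity) hH
      _ = (H * 1 / y) * (1 / X) := by field_simp
      _ ≤ (H * (W.card + 1) / y) * (1 / X) := by
          apply mul_le_mul_of_nonneg_right _ (by positivity)
          apply div_le_div_of_nonneg_right _ hy0.le
          exact mul_le_mul_of_nonneg_left (by linarith) hH
  · have h3 : ∀ r ∈ W, |(c r : ℝ) / (wD k r q : ℝ)| ≤ H * (1 / (y * X)) := by
      intro r hr
      have h1 : wN u w q ^ (k - S) ≤ wD k r q ^ (u + w) :=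
        Nat.le_of_dvd (pow_pos (wD_pos k r q) _) (dvd_lower u w k S r hu hw (by omega) (hW r hr) q)
      have h2 := hone _ (wD_pos k r q) h1
      rw [abs_div, Nat.abs_cast]
      calc |(c r : ℝ)| / (wD k r q : ℝ) = |(c r : ℝ)| * (1 / (wD k r q : ℝ)) := by ring
        _ ≤ H * (1 / (y * X)) := mul_le_mul (hc r hr) h2 (by positivity) hH
    have h4 : |∑ r ∈ W, (c r : ℝ) / (wD k r q : ℝ)| ≤ ∑ r ∈ W, H * (1 / (y * X)) :=
      le_trans (Finset.abs_sum_le_sum_abs _ _) (Finset.sum_le_sum h3)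
    rw [Finset.sum_const, nsmul_eq_mul] at h4
    rw [hwb]
    calc _ ≤ _ := h4
      _ = (H * W.card / y) * (1 / X) := by field_simp
      _ ≤ (H * (W.card + 1) / y) * (1 / X) := by
          apply mul_le_mul_of_nonneg_right _ (by positivity)
          apply div_le_div_of_nonneg_right _ hy0.le
          exact mul_le_mul_of_nonneg_left (by linarith) hH

lemma wB_upper (u w k S N0 : ℕ) (W : Finset ℕ) (c0 : ℤ) (c : ℕ → ℤ) (H : ℝ) (hu : 1 ≤ u) (hw : 1 ≤ w)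
    (hk : S + 2 * (u + w) ≤ k) (hW : ∀ r ∈ W, InWin u (u + w) k S r)
    (h0 : |(c0 : ℝ)| ≤ H) (hc : ∀ r ∈ W, |(c r : ℝ)| ≤ H) (y : ℝ) (hy0 : 0 < y)
    (hy : y ^ (u + w) = ((N0 + 1 : ℕ) : ℝ) ^ (k - S - 2 * (u + w)))
    (hrel : HasSum (wG k W c0 c) 0) (hz : ∀ N < N0, wB u w k W c0 c N = 0) :
    |wB u w k W c0 c N0| ≤ 4 * (H * (W.card + 1) / y) := by
  classical
  have hH : 0 ≤ H := le_trans (abs_nonneg _) h0
  set F : Finset (ℕ × ℕ) := (Finset.range N0 ×ˢ Finset.range N0).filter (fun q => wN u w q ≤ N0) with hF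
  have hmF : ∀ q, q ∈ F ↔ wN u w q ≤ N0 := by
    intro q
    rw [hF, Finset.mem_filter, Finset.mem_product, Finset.mem_range, Finset.mem_range]
    constructor
    · exact fun h => h.2
    · intro h
      have := lt_wN u w hu q
      exact ⟨⟨by omega, by omega⟩, h⟩
  have hsumF : ∑ q ∈ F, wG k W c0 c q = wB u w k W c0 c N0 := by
    have h1 : ∀ q ∈ F, wN u w q ∈ Finset.range (N0 + 1) := by
      intro q hq
      have := (hmF q).1 hq
      rw [Finset.mem_range]; omega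
    rw [← Finset.sum_fiberwise_of_maps_to h1]
    have h2 : ∀ N ∈ Finset.range (N0 + 1), ∑ q ∈ F.filter (fun q => wN u w q = N), wG k W c0 c q = wB u w k W c0 c N := by
      intro N hN
      unfold wB
      apply Finset.sum_congr _ (fun _ _ => rfl)
      ext q
      rw [Finset.mem_filter, hmF, mem_wK u w N hu]
      have := Finset.mem_range.1 hN
      constructor
      · exact fun h => h.2
      · intro h; exact ⟨by omega, h⟩
    rw [Finset.sum_congr rfl h2, Finset.sum_range_succ]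
    rw [Finset.sum_eq_zero (fun N hN => hz N (Finset.mem_range.1 hN)), zero_add]
  have h1 := hrel.summable.sum_add_tsum_compl (s := F)
  rw [hrel.tsum_eq, hsumF] at h1
  have h2 : wB u w k W c0 c N0 = - ∑' x : ↑((↑F : Set (ℕ × ℕ))ᶜ), wG k W c0 c x := by linarith
  rw [h2, abs_neg]
  obtain ⟨hb1, hb2⟩ := wb_sum
  have hQ : 0 ≤ H * (W.card + 1) / y := by positivity
  have hbs : Summable (fun q : ℕ × ℕ => (H * (W.card + 1) / y) * wb q) := hb1.mul_left _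
  have h3 : ‖∑' x : ↑((↑F : Set (ℕ × ℕ))ᶜ), wG k W c0 c x‖ ≤
      ∑' x : ↑((↑F : Set (ℕ × ℕ))ᶜ), (H * (W.card + 1) / y) * wb x := by
    apply tsum_of_norm_bounded (hbs.subtype _).hasSum
    rintro ⟨q, hq⟩
    rw [Real.norm_eq_abs]
    have hq' : ¬ (wN u w q ≤ N0) := by
      intro hcon
      exact hq (Finset.mem_coe.2 ((hmF q).2 hcon))
    exact wG_bound u w k S N0 W c0 c H hu hw hk hW h0 hc y hy0 hy q (by omega)
  rw [Real.norm_eq_abs] at h3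
  have h4 : ∑' x : ↑((↑F : Set (ℕ × ℕ))ᶜ), (H * (W.card + 1) / y) * wb x ≤ ∑' q : ℕ × ℕ, (H * (W.card + 1) / y) * wb q :=
    hbs.tsum_subtype_le (fun q => (H * (W.card + 1) / y) * wb q) _ (fun q => mul_nonneg hQ (wb_nonneg q))
  have h5 : ∑' q : ℕ × ℕ, (H * (W.card + 1) / y) * wb q = (H * (W.card + 1) / y) * ∑' q : ℕ × ℕ, wb q :=
    tsum_mul_left
  rw [h5] at h4
  calc _ ≤ _ := h3
    _ ≤ _ := h4
    _ ≤ (H * (W.card + 1) / y) * 4 := mul_le_mul_of_nonneg_left hb2 hQ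
    _ = _ := by ring

end Pool.Agent.Helper43.OD
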