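import Mathlib
import Pool.Agent.Helper43.OD.Win2

set_option autoImplicit false

namespace Pool.Agent.Helper43.OD

open Finset

lemma hasSum_split (f : ℕ × ℕ → ℝ) (x y : ℝ) (h0 : HasSum (fun n : ℕ => f (0, n)) x)
    (h1 : HasSum (fun p : ℕ × ℕ => f (p.1 + 1, p.2)) y) : HasSum f (x + y) := by
  have hi1 : Function.Injective (fun n : ℕ => ((0, n) : ℕ × ℕ)) := by
    intro a b hab; exact (Prod.mk.inj hab).2
  have hi2 : Function.Injective (fun p : ℕ × ℕ => ((p.1 + 1, p.2) : ℕ × ℕ)) := by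
    rintro ⟨a, b⟩ ⟨a', b'⟩ hab
    have := Prod.mk.inj hab
    simp only at this
    exact Prod.ext (by simp only; omega) this.2
  have e1 : Set.range (fun p : ℕ × ℕ => ((p.1 + 1, p.2) : ℕ × ℕ)) =
      (Set.range (fun n : ℕ => ((0, n) : ℕ × ℕ)))ᶜ := by
    ext ⟨a, b⟩
    rw [Set.mem_compl_iff, Set.mem_range, Set.mem_range]
    constructor
    · rintro ⟨⟨x, y⟩, hxy⟩ ⟨n, hn⟩
      have g1 := (Prod.mk.inj hxy).1
      have g2 := (Prod.mk.inj hn).1
      simp only at g1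
      omega
    · intro hcon
      rcases Nat.eq_zero_or_pos a with h | h
      · exact absurd ⟨b, by rw [h]⟩ hcon
      · refine ⟨(a - 1, b), ?_⟩
        simp only
        rw [Nat.sub_add_cancel h]
  have hcompl : IsCompl (Set.range (fun n : ℕ => ((0, n) : ℕ × ℕ)))
      (Set.range (fun p : ℕ × ℕ => ((p.1 + 1, p.2) : ℕ × ℕ))) := by
    rw [e1]
    exact isCompl_compl
  have h5 : HasSum (f ∘ ((↑) : Set.range (fun n : ℕ => ((0, n) : ℕ × ℕ)) → ℕ × ℕ)) x :=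
    hi1.hasSum_range_iff.2 h0
  have h6 : HasSum (f ∘ ((↑) : Set.range (fun p : ℕ × ℕ => ((p.1 + 1, p.2) : ℕ × ℕ)) → ℕ × ℕ)) y :=
    hi2.hasSum_range_iff.2 h1
  exact HasSum.add_isCompl hcompl h5 h6

/-- the relation as a sum over all pairs -/
lemma win_hasSum (k : ℕ) (W : Finset ℕ) (c0 : ℤ) (c : ℕ → ℤ) (hk2 : 2 ≤ k)
    (hW : ∀ r ∈ W, 2 ≤ r ∧ r + 1 ≤ k)
    (hrel : ∑ r ∈ W, (c r : ℝ) * ∑' p : ℕ × ℕ,
        (1 : ℝ) / ((((p.1 + p.2 + 2 : ℕ) : ℝ) ^ r) * (((p.2 + 1 : ℕ) : ℝ) ^ (k - r))) =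
      c0 * ∑' n : ℕ, (1 : ℝ) / ((n + 1 : ℕ) : ℝ) ^ k) :
    HasSum (wG k W c0 c) 0 := by
  have hz : Summable (fun n : ℕ => (1 : ℝ) / ((n + 1 : ℕ) : ℝ) ^ k) := by
    have h1 : Summable (fun n : ℕ => (1 : ℝ) / (n : ℝ) ^ k) := Real.summable_one_div_nat_pow.2 (by omega)
    exact h1.comp_injective (add_left_injective 1)
  set Zk : ℝ := ∑' n : ℕ, (1 : ℝ) / ((n + 1 : ℕ) : ℝ) ^ k with hZk
  have h1 : HasSum (fun n : ℕ => (-(c0 : ℝ)) * (1 / ((n + 1 : ℕ) : ℝ) ^ k)) ((-(c0 : ℝ)) * Zk) :=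
    hz.hasSum.mul_left _
  have h2 : HasSum (fun p : ℕ × ℕ => ∑ r ∈ W, (c r : ℝ) * dt r (k - r) p)
      (∑ r ∈ W, (c r : ℝ) * ∑' p : ℕ × ℕ, dt r (k - r) p) := by
    apply hasSum_sum
    intro r hr
    have hr' := hW r hr
    exact (dt_summable r (k - r) hr'.1 (by omega)).hasSum.mul_left _
  have h3 : HasSum (fun n : ℕ => wG k W c0 c (0, n)) ((-(c0 : ℝ)) * Zk) := by
    refine h1.congr_fun ?_
    intro n
    have e : wG k W c0 c (0, n) = - (c0 : ℝ) / ((wD k k (0, n) : ℕ) : ℝ) := by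
      unfold wG; rw [if_pos rfl]
    have e2 : wD k k (0, n) = (n + 1) ^ k := by
      unfold wD; rw [Nat.sub_self, pow_zero, mul_one]; simp
    rw [e, e2, Nat.cast_pow]
    rw [div_eq_mul_one_div]
  have h4 : HasSum (fun p : ℕ × ℕ => wG k W c0 c (p.1 + 1, p.2))
      (∑ r ∈ W, (c r : ℝ) * ∑' p : ℕ × ℕ, dt r (k - r) p) := by
    refine h2.congr_fun ?_
    intro p
    have e : wG k W c0 c (p.1 + 1, p.2) = ∑ r ∈ W, (c r : ℝ) / ((wD k r (p.1 + 1, p.2) : ℕ) : ℝ) := by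
      unfold wG; rw [if_neg (Nat.succ_ne_zero _)]
    rw [e]
    apply Finset.sum_congr rfl
    intro r _
    have e2 : wD k r (p.1 + 1, p.2) = (p.1 + p.2 + 2) ^ r * (p.2 + 1) ^ (k - r) := by
      unfold wD
      have : p.1 + 1 + p.2 + 1 = p.1 + p.2 + 2 := by ring
      simp only
      rw [this]
    rw [e2, Nat.cast_mul, Nat.cast_pow, Nat.cast_pow]
    unfold dt
    rw [div_eq_mul_one_div]
  have h7 := hasSum_split _ _ _ h3 h4
  have h8 : (-(c0 : ℝ)) * Zk + ∑ r ∈ W, (c r : ℝ) * ∑' p : ℕ × ℕ, dt r (k - r) p = 0 := by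
    have : ∑ r ∈ W, (c r : ℝ) * ∑' p : ℕ × ℕ, dt r (k - r) p = c0 * Zk := hrel
    rw [this]; ring
  rw [h8] at h7
  exact h7

/-- the cluster of p^u, p prime -/
lemma wK_prime (u w p : ℕ) (hu : 1 ≤ u) (hw : 1 ≤ w) (hp : p.Prime) : wK u w (p ^ u) = {(p - 1, 0)} := by
  ext ⟨a, b⟩
  rw [mem_wK u w _ hu, Finset.mem_singleton]
  have hp2 := hp.two_le
  constructor
  · intro h
    unfold wN at h
    simp only at h
    have h1 : (b + 1) ∣ p ^ u := by
      rw [← h]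
      exact Dvd.dvd.mul_left (dvd_pow_self _ (by omega)) _
    have hb : b = 0 := by
      by_contra hb
      obtain ⟨j, hj1, hj2⟩ := (Nat.dvd_prime_pow hp).1 h1
      have hj0 : j ≠ 0 := by
        intro h0; rw [h0, pow_zero] at hj2; omega
      have h3 : p ≤ b + 1 := by
        rw [hj2]
        calc p = p ^ 1 := (pow_one p).symm
          _ ≤ p ^ j := Nat.pow_le_pow_right (by omega) (by omega)
      have h4 : p ^ u < (a + b + 1) ^ u * (b + 1) ^ w := by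
        calc p ^ u = p ^ u * 1 := (mul_one _).symm
          _ < p ^ u * (b + 1) ^ w := by
              apply Nat.mul_lt_mul_of_pos_left _ (by positivity)
              exact Nat.one_lt_pow (by omega) (by omega)
          _ ≤ (a + b + 1) ^ u * (b + 1) ^ w :=
              Nat.mul_le_mul_right _ (Nat.pow_le_pow_left (by omega) u)
      omega
    subst hb
    have h5 : (a + 1) ^ u = p ^ u := by
      simpa using h
    have h6 : a + 1 = p := Nat.pow_left_injective (by omega) h5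
    exact Prod.ext (by simp only; omega) rfl
  · intro h
    have h1 := (Prod.mk.inj h).1
    have h2 := (Prod.mk.inj h).2
    subst h1 h2
    unfold wN
    simp only
    have : p - 1 + 0 + 1 = p := by omega
    rw [this]
    simp

lemma prime_dvd_top (k : ℕ) (u w : ℕ) (W : Finset ℕ) (c0 : ℤ) (c : ℕ → ℤ) (hu : 1 ≤ u) (hw : 1 ≤ w) (p r0 : ℕ)
    (hp : p.Prime) (hr0 : r0 ∈ W) (htop : ∀ r ∈ W, r0 < r → c r = 0)
    (hB : wB u w k W c0 c (p ^ u) = 0) : (p : ℤ) ∣ c r0 := by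
  have hp2 := hp.two_le
  unfold wB at hB
  rw [wK_prime u w p hu hw hp, Finset.sum_singleton] at hB
  have e : wG k W c0 c (p - 1, 0) = ∑ r ∈ W, (c r : ℝ) / ((wD k r (p - 1, 0) : ℕ) : ℝ) := by
    unfold wG; rw [if_neg (by simp only; omega)]
  rw [e] at hB
  have e2 : ∀ r, wD k r (p - 1, 0) = p ^ r := by
    intro r
    unfold wD
    simp only
    have : p - 1 + 0 + 1 = p := by omega
    rw [this]; simp
  have hp0 : (p : ℝ) ≠ 0 := by positivity
  have h1 : ∑ r ∈ W, (c r : ℝ) * (p : ℝ) ^ (r0 - r) = 0 := by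
    have h2 : (p : ℝ) ^ r0 * ∑ r ∈ W, (c r : ℝ) / ((wD k r (p - 1, 0) : ℕ) : ℝ) = 0 := by rw [hB, mul_zero]
    rw [Finset.mul_sum] at h2
    rw [← h2]
    apply Finset.sum_congr rfl
    intro r hr
    rw [e2 r]
    by_cases h : r ≤ r0
    · have e3 : (p : ℝ) ^ r0 = (p : ℝ) ^ (r0 - r) * (p : ℝ) ^ r := by
        rw [← pow_add]; congr 1; omega
      rw [e3, Nat.cast_pow]
      field_simp
    · rw [htop r hr (by omega)]; simp
  have h3 : ∑ r ∈ W, c r * (p : ℤ) ^ (r0 - r) = 0 := by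
    have : ((∑ r ∈ W, c r * (p : ℤ) ^ (r0 - r) : ℤ) : ℝ) = 0 := by
      push_cast; exact h1
    exact_mod_cast this
  rw [← Finset.add_sum_erase W _ hr0] at h3
  rw [Nat.sub_self, pow_zero, mul_one] at h3
  have h4 : (p : ℤ) ∣ ∑ r ∈ W.erase r0, c r * (p : ℤ) ^ (r0 - r) := by
    apply Finset.dvd_sum
    intro r hr
    have hr' := Finset.mem_erase.1 hr
    by_cases h : r < r0
    · exact Dvd.dvd.mul_left (dvd_pow_self _ (by omega)) _
    · rw [htop r hr'.2 (by have := hr'.1; omega), zero_mul]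
      exact dvd_zero _
  have h5 : c r0 = - ∑ r ∈ W.erase r0, c r * (p : ℤ) ^ (r0 - r) := by linarith
  rw [h5]
  exact (dvd_neg).2 h4

end Pool.Agent.Helper43.OD
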