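import Mathlib
import Pool.Agent.Helper43.OD.Win3

set_option autoImplicit false

namespace Pool.Agent.Helper43.OD

open Finset

lemma win_card (u v k S : ℕ) (hv : 1 ≤ v) (W : Finset ℕ) (hW : ∀ r ∈ W, InWin u v k S r) :
    W.card ≤ 2 * S + 1 := by
  have h1 : W.card ≤ (Finset.Icc (-(S : ℤ)) S).card := by
    apply Finset.card_le_card_of_injOn (fun r : ℕ => ((v : ℤ) * r) - u * k)
    · intro r hr
      have h := (hW r (Finset.mem_coe.1 hr)).2.2
      rw [abs_le] at h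
      exact Finset.mem_coe.2 (Finset.mem_Icc.2 h)
    · intro r _ r' _ h
      simp only at h
      have hv' : (v : ℤ) ≠ 0 := by positivity
      have h2 : (v : ℤ) * r = v * r' := by linarith
      exact_mod_cast mul_left_cancel₀ hv' h2
  have h2 : (Finset.Icc (-(S : ℤ)) S).card = 2 * S + 1 := by
    rw [Int.card_Icc]; omega
  omega

lemma win_main (u w k S N0 : ℕ) (W : Finset ℕ) (c0 : ℤ) (c : ℕ → ℤ) (H : ℝ) (hu : 1 ≤ u) (hw : 1 ≤ w)
    (hk : S + 2 * (u + w) ≤ k) (hW : ∀ r ∈ W, InWin u (u + w) k S r)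
    (h0 : |(c0 : ℝ)| ≤ H) (hc : ∀ r ∈ W, |(c r : ℝ)| ≤ H) (hH1 : 1 ≤ H)
    (hrel : HasSum (wG k W c0 c) 0) (hz : ∀ N < N0, wB u w k W c0 c N = 0)
    (hne : wB u w k W c0 c N0 ≠ 0) :
    (k : ℝ) ≤ ((N0 + 1 : ℕ) : ℝ) * ((u + w : ℕ) * Real.log (4 * H * (2 * S + 2)) +
      (2 * S + 2 * (u + w : ℕ)) * Real.log ((N0 + 1 : ℕ) : ℝ)) := by
  have hv0 : u + w ≠ 0 := by omega
  have hN0 : 1 ≤ N0 := by
    rw [Nat.one_le_iff_ne_zero]
    intro h
    apply hne
    rw [h]
    unfold wB wK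
    simp
  set Y : ℝ := ((N0 + 1 : ℕ) : ℝ) ^ (k - S - 2 * (u + w)) with hY
  have hY0 : 0 < Y := by positivity
  set y : ℝ := Y ^ (((u + w : ℕ) : ℝ)⁻¹) with hy
  have hy0 : 0 < y := Real.rpow_pos_of_pos hY0 _
  have hyv : y ^ (u + w) = Y := Real.rpow_inv_natCast_pow hY0.le hv0
  have h1 := wB_upper u w k S N0 W c0 c H hu hw hk hW h0 hc y hy0 hyv hrel hz
  obtain ⟨M, hM0, hM1, hM2⟩ := wB_lower u w k S W c0 c hu hw (by omega) hW N0 hne
  have hcard : (W.card : ℝ) ≤ 2 * S + 1 := by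
    exact_mod_cast win_card u (u + w) k S (by omega) W hW
  have hM' : (0 : ℝ) < M := by exact_mod_cast hM0
  have hS0 : (0 : ℝ) ≤ S := Nat.cast_nonneg _
  have h2 : y ≤ (4 * H * (2 * S + 2)) * M := by
    have e1 : 1 ≤ M * (4 * (H * (W.card + 1) / y)) := le_trans hM2 (mul_le_mul_of_nonneg_left h1 hM'.le)
    have e2 : y ≤ y * (M * (4 * (H * (W.card + 1) / y))) := le_mul_of_one_le_right hy0.le e1
    have e3 : y * (M * (4 * (H * (W.card + 1) / y))) = (4 * H * (W.card + 1)) * M := by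
      field_simp
    rw [e3] at e2
    refine le_trans e2 ?_
    apply mul_le_mul_of_nonneg_right _ hM'.le
    apply mul_le_mul_of_nonneg_left _ (by linarith)
    linarith
  have h3 : Y ≤ (4 * H * (2 * S + 2)) ^ (u + w) * (N0 : ℝ) ^ (k + S) := by
    calc Y = y ^ (u + w) := hyv.symm
      _ ≤ ((4 * H * (2 * S + 2)) * M) ^ (u + w) := pow_le_pow_left₀ hy0.le h2 _
      _ = (4 * H * (2 * S + 2)) ^ (u + w) * (M : ℝ) ^ (u + w) := mul_pow _ _ _
      _ ≤ _ := by
          apply mul_le_mul_of_nonneg_left _ (by positivity)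
          exact_mod_cast hM1
  have hNr : (1 : ℝ) ≤ (N0 : ℝ) := by exact_mod_cast hN0
  have hQ : 0 < 4 * H * (2 * (S : ℝ) + 2) := by positivity
  have h4 := Real.log_le_log hY0 h3
  rw [hY, Real.log_pow, Real.log_mul (by positivity) (by positivity), Real.log_pow, Real.log_pow] at h4
  have e5 : ((k - S - 2 * (u + w) : ℕ) : ℝ) = (k : ℝ) - S - 2 * (u + w : ℕ) := by
    rw [Nat.sub_sub, Nat.cast_sub (by omega)]
    push_cast; ring
  rw [e5] at h4
  have h6 : 1 / ((N0 + 1 : ℕ) : ℝ) ≤ Real.log ((N0 + 1 : ℕ) : ℝ) - Real.log N0 := by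
    rw [← Real.log_div (by positivity) (by positivity)]
    have e1 := Real.one_sub_inv_le_log_of_pos (x := ((N0 + 1 : ℕ) : ℝ) / (N0 : ℝ)) (by positivity)
    refine le_trans (le_of_eq ?_) e1
    push_cast
    field_simp
    ring
  have h7 : Real.log N0 ≤ Real.log ((N0 + 1 : ℕ) : ℝ) := Real.log_le_log (by linarith) (by push_cast; linarith)
  have h8 : 0 ≤ Real.log (N0 : ℝ) := Real.log_nonneg hNr
  have hkS : ((k + S : ℕ) : ℝ) = (k : ℝ) + S := by push_cast; ring
  rw [hkS] at h4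
  have hk0 : (0 : ℝ) ≤ k := Nat.cast_nonneg _
  set L1 := Real.log ((N0 + 1 : ℕ) : ℝ) with hL1
  set L0 := Real.log (N0 : ℝ) with hL0
  set A := Real.log (4 * H * (2 * (S : ℝ) + 2)) with hA
  set V : ℝ := ((u + w : ℕ) : ℝ) with hV
  have h9 : (k : ℝ) * (1 / ((N0 + 1 : ℕ) : ℝ)) ≤ V * A + (2 * S + 2 * V) * L1 := by
    have e1 : (k : ℝ) * (1 / ((N0 + 1 : ℕ) : ℝ)) ≤ k * (L1 - L0) := mul_le_mul_of_nonneg_left h6 hk0
    have e2 : (S : ℝ) * L0 ≤ S * L1 := mul_le_mul_of_nonneg_left h7 hS0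
    nlinarith
  have h10 : (k : ℝ) = ((N0 + 1 : ℕ) : ℝ) * ((k : ℝ) * (1 / ((N0 + 1 : ℕ) : ℝ))) := by
    field_simp
  rw [h10]
  exact mul_le_mul_of_nonneg_left h9 (by positivity)

lemma exists_top' (W : Finset ℕ) (c : ℕ → ℤ) (hc : ∃ r ∈ W, c r ≠ 0) :
    ∃ r0 ∈ W, c r0 ≠ 0 ∧ ∀ r ∈ W, r0 < r → c r = 0 := by
  classical
  set A := W.filter (fun s => c s ≠ 0) with hA
  have hne : A.Nonempty := by
    obtain ⟨s, hs, hs2⟩ := hc
    exact ⟨s, Finset.mem_filter.2 ⟨hs, hs2⟩⟩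
  have h1 := Finset.max'_mem A hne
  have h2 := Finset.mem_filter.1 h1
  refine ⟨A.max' hne, h2.1, h2.2, ?_⟩
  intro s hs hs2
  by_contra hcon
  have : s ∈ A := Finset.mem_filter.2 ⟨hs, hcon⟩
  have := Finset.le_max' A s this
  omega

lemma theta_bound' (u w k N0 : ℕ) (W : Finset ℕ) (c0 : ℤ) (c : ℕ → ℤ) (H : ℝ) (hu : 1 ≤ u) (hw : 1 ≤ w)
    (hne : ∃ r ∈ W, c r ≠ 0) (hc : ∀ r ∈ W, |(c r : ℝ)| ≤ H)
    (hz : ∀ N < N0, wB u w k W c0 c N = 0) (y : ℕ) (hy : y ^ u < N0) :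
    Chebyshev.theta y ≤ Real.log H := by
  obtain ⟨r0, a1, a2, a3⟩ := exists_top' W c hne
  have h1 : primorial y ∣ (c r0).natAbs := by
    unfold primorial
    apply Finset.prod_primes_dvd
    · intro p hp
      exact (Finset.mem_filter.1 hp).2.prime
    · intro p hp
      have b1 := Finset.mem_filter.1 hp
      have b2 : p ≤ y := by
        have := b1.1
        simp at this
        omega
      have b3 : p ^ u < N0 := lt_of_le_of_lt (Nat.pow_le_pow_left b2 u) hy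
      have := prime_dvd_top k u w W c0 c hu hw p r0 b1.2 a1 a3 (hz _ b3)
      exact Int.natCast_dvd.1 this
  have h2 : primorial y ≤ (c r0).natAbs := Nat.le_of_dvd (Int.natAbs_pos.2 a2) h1
  have h3 : (primorial y : ℝ) ≤ H := by
    have b1 : ((primorial y : ℕ) : ℝ) ≤ ((c r0).natAbs : ℝ) := by exact_mod_cast h2
    have b2 : (((c r0).natAbs : ℕ) : ℝ) = |(c r0 : ℝ)| := by
      rw [Nat.cast_natAbs]; push_cast; rfl
    rw [b2] at b1
    exact le_trans b1 (hc r0 a1)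
  rw [Chebyshev.theta_eq_log_primorial, Nat.floor_natCast]
  exact Real.log_le_log (by exact_mod_cast primorial_pos y) h3

lemma wB_one (u w k : ℕ) (W : Finset ℕ) (c0 : ℤ) (c : ℕ → ℤ) (hu : 1 ≤ u) :
    wB u w k W c0 c 1 = - (c0 : ℝ) := by
  have h1 : wK u w 1 = {(0, 0)} := by
    ext ⟨a, b⟩
    rw [mem_wK u w _ hu, Finset.mem_singleton]
    constructor
    · intro h
      have := lt_wN u w hu (a, b)
      simp only at this
      exact Prod.ext (by simp only; omega) (by simp only; omega)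
    · intro h
      rw [h]; unfold wN; simp
  unfold wB
  rw [h1, Finset.sum_singleton]
  unfold wG wD
  simp

theorem window_bound : ∀ u w : ℕ, 1 ≤ u → 1 ≤ w → ∃ C : ℝ, ∀ (k S : ℕ) (W : Finset ℕ) (c0 : ℤ) (c : ℕ → ℤ) (H : ℝ),
    2 ≤ k → 1 ≤ S → (∀ r ∈ W, InWin u (u + w) k S r) → (c0 ≠ 0 ∨ ∃ r ∈ W, c r ≠ 0) →
    |(c0 : ℝ)| ≤ H → (∀ r ∈ W, |(c r : ℝ)| ≤ H) →
    ∑ r ∈ W, (c r : ℝ) * ∑' p : ℕ × ℕ,
        (1 : ℝ) / ((((p.1 + p.2 + 2 : ℕ) : ℝ) ^ r) * (((p.2 + 1 : ℕ) : ℝ) ^ (k - r))) =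
      c0 * ∑' n : ℕ, (1 : ℝ) / ((n + 1 : ℕ) : ℝ) ^ k →
    (k : ℝ) ≤ C * S * Real.log (2 * H) ^ (u + 1) := by
  intro u w hu hw
  obtain ⟨C1, hC1, hC1'⟩ := cheb
  set E : ℝ := 2 * (3 * C1) ^ u with hE
  have hE1 : 1 ≤ E := by
    have : (1 : ℝ) ≤ (3 * C1) ^ u := one_le_pow₀ (by linarith)
    rw [hE]; linarith
  have hlE : 0 ≤ Real.log E := Real.log_nonneg hE1
  set V : ℝ := ((u + w : ℕ) : ℝ) with hV
  have hV0 : 0 ≤ V := Nat.cast_nonneg _
  refine ⟨(1 + 2 * V) * 2 ^ (u + 1) + E * (12 * V + (2 + 2 * V) * (2 * Real.log E + u)), ?_⟩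
  intro k S W c0 c H hk2 hS hW hne h0 hc hrel
  have hH1 : 1 ≤ H := by
    rcases hne with h | ⟨s, hs, h⟩
    · have := Int.one_le_abs h
      have h2 : (1 : ℝ) ≤ |(c0 : ℝ)| := by exact_mod_cast this
      linarith
    · have := Int.one_le_abs h
      have h2 : (1 : ℝ) ≤ |(c s : ℝ)| := by exact_mod_cast this
      linarith [hc s hs]
  have hS1 : (1 : ℝ) ≤ (S : ℝ) := by exact_mod_cast hS
  have hl2' : (0.69 : ℝ) ≤ Real.log 2 := by have := Real.log_two_gt_d9; linarith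
  have hlH : 0 ≤ Real.log H := Real.log_nonneg hH1
  have hell : Real.log (2 * H) = Real.log 2 + Real.log H := Real.log_mul (by norm_num) (by linarith)
  set l : ℝ := Real.log (2 * H) with hl
  have hl0 : (0.69 : ℝ) ≤ l := by linarith
  have hl1 : 0 < l := by linarith
  have hu0 : (0 : ℝ) ≤ u := Nat.cast_nonneg _
  have hT1 : 0 ≤ E * (12 * V + (2 + 2 * V) * (2 * Real.log E + u)) := by positivity
  have hT2 : 0 ≤ (1 + 2 * V) * 2 ^ (u + 1) := by positivity
  by_cases hk : S + 2 * (u + w) ≤ k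
  swap
  · have h1 : (k : ℝ) ≤ S + 2 * V := by
      rw [hV]; push_cast
      have : (k : ℝ) ≤ ((S + 2 * (u + w) : ℕ) : ℝ) := by exact_mod_cast (by omega : k ≤ S + 2 * (u + w))
      push_cast at this; linarith
    have h2 : (1 : ℝ) ≤ (2 * l) ^ (u + 1) := one_le_pow₀ (by linarith)
    have h3 : (S : ℝ) + 2 * V ≤ (1 + 2 * V) * S := by nlinarith
    calc (k : ℝ) ≤ (1 + 2 * V) * S := le_trans h1 h3
      _ = (1 + 2 * V) * S * 1 := by ring
      _ ≤ (1 + 2 * V) * S * (2 * l) ^ (u + 1) := mul_le_mul_of_nonneg_left h2 (by positivity)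
      _ = ((1 + 2 * V) * 2 ^ (u + 1)) * S * l ^ (u + 1) := by rw [mul_pow]; ring
      _ ≤ _ := by
          apply mul_le_mul_of_nonneg_right _ (by positivity)
          apply mul_le_mul_of_nonneg_right _ (by positivity)
          linarith
  have hsum := win_hasSum k W c0 c hk2 (fun r hr => ⟨(hW r hr).1, (hW r hr).2.1⟩) hrel
  have hex : ∃ N, wB u w k W c0 c N ≠ 0 := by
    by_contra hcon
    push Not at hcon
    by_cases hc0 : c0 = 0
    · have hne' : ∃ r ∈ W, c r ≠ 0 := by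
        rcases hne with h | h
        · exact absurd hc0 h
        · exact h
      obtain ⟨r0, a1, a2, a3⟩ := exists_top' W c hne'
      obtain ⟨p, hp1, hp2⟩ := Nat.exists_infinite_primes ((c r0).natAbs + 1)
      have h5 := prime_dvd_top k u w W c0 c hu hw p r0 hp2 a1 a3 (hcon _)
      have h6 : p ∣ (c r0).natAbs := Int.natCast_dvd.1 h5
      have h7 := Nat.le_of_dvd (Int.natAbs_pos.2 a2) h6
      omega
    · have h1 := hcon 1
      rw [wB_one u w k W c0 c hu] at h1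
      apply hc0
      have : (c0 : ℝ) = 0 := by linarith
      exact_mod_cast this
  classical
  set N0 := Nat.find hex with hN0
  have hN1 : wB u w k W c0 c N0 ≠ 0 := Nat.find_spec hex
  have hN2 : ∀ N < N0, wB u w k W c0 c N = 0 := by
    intro j hj
    have := Nat.find_min hex hj
    push Not at this
    exact this
  have hNpos : 1 ≤ N0 := by
    rw [Nat.one_le_iff_ne_zero]
    intro h
    apply hN1
    rw [h]
    unfold wB wK
    simp
  have hmain := win_main u w k S N0 W c0 c H hu hw hk hW h0 hc hH1 hsum hN2 hN1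
  have hNb : (N0 : ℝ) ≤ (3 * C1 * l) ^ u := by
    have h3l : 1 ≤ 3 * C1 * l := by nlinarith
    by_cases hc0 : c0 = 0
    · have hne' : ∃ r ∈ W, c r ≠ 0 := by
        rcases hne with h | h
        · exact absurd hc0 h
        · exact h
      have hexX : ∃ X : ℕ, N0 ≤ X ^ u := ⟨N0, Nat.le_self_pow (by omega) _⟩
      set X := Nat.find hexX with hX
      have hX1 : N0 ≤ X ^ u := Nat.find_spec hexX
      have hX0 : 1 ≤ X := by
        rw [Nat.one_le_iff_ne_zero]
        intro h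
        rw [h, zero_pow (by omega)] at hX1
        omega
      have hX2 : (X - 1) ^ u < N0 := by
        have := Nat.find_min hexX (m := X - 1) (by omega)
        omega
      have ht := theta_bound' u w k N0 W c0 c H hu hw hne' hc hN2 (X - 1) hX2
      have h2 := hC1' (X - 1)
      have h3 : ((X - 1 : ℕ) : ℝ) = (X : ℝ) - 1 := by
        rw [Nat.cast_sub hX0]; norm_num
      rw [h3] at h2 ht
      have h4 : (X : ℝ) - 1 ≤ C1 * (Real.log H + 1) := by
        refine le_trans h2 ?_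
        apply mul_le_mul_of_nonneg_left _ (by linarith)
        linarith
      have h5 : (X : ℝ) ≤ 3 * C1 * l := by
        have e1 : Real.log H + 2 ≤ 3 * l := by linarith
        calc (X : ℝ) ≤ C1 * (Real.log H + 1) + 1 := by linarith
          _ ≤ C1 * (Real.log H + 2) := by nlinarith
          _ ≤ C1 * (3 * l) := mul_le_mul_of_nonneg_left e1 (by linarith)
          _ = _ := by ring
      calc (N0 : ℝ) ≤ ((X ^ u : ℕ) : ℝ) := by exact_mod_cast hX1
        _ = (X : ℝ) ^ u := by push_cast; ring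
        _ ≤ _ := pow_le_pow_left₀ (Nat.cast_nonneg _) h5 u
    · have h1 : wB u w k W c0 c 1 ≠ 0 := by
        rw [wB_one u w k W c0 c hu]
        intro hcon
        apply hc0
        have : (c0 : ℝ) = 0 := by linarith
        exact_mod_cast this
      have h2 : N0 ≤ 1 := Nat.find_min' hex h1
      calc (N0 : ℝ) ≤ 1 := by exact_mod_cast h2
        _ ≤ _ := one_le_pow₀ h3l
  have hN3 : ((N0 + 1 : ℕ) : ℝ) ≤ E * l ^ u := by
    have e1 : (1 : ℝ) ≤ (N0 : ℝ) := by exact_mod_cast hNpos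
    push_cast
    rw [hE]
    have e2 : (3 * C1 * l) ^ u = (3 * C1) ^ u * l ^ u := mul_pow _ _ _
    rw [e2] at hNb
    linarith
  have hN4 : (2 : ℝ) ≤ ((N0 + 1 : ℕ) : ℝ) := by
    have e1 : (1 : ℝ) ≤ (N0 : ℝ) := by exact_mod_cast hNpos
    push_cast; linarith
  have hlog1 : Real.log ((N0 + 1 : ℕ) : ℝ) ≤ (2 * Real.log E + u) * l := by
    have e1 : Real.log ((N0 + 1 : ℕ) : ℝ) ≤ Real.log (E * l ^ u) := Real.log_le_log (by linarith) hN3
    rw [Real.log_mul (by positivity) (by positivity), Real.log_pow] at e1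
    have e2 : Real.log l ≤ l := by
      have := Real.log_le_sub_one_of_pos hl1; linarith
    have e3 : (u : ℝ) * Real.log l ≤ u * l := mul_le_mul_of_nonneg_left e2 hu0
    have e4 : Real.log E ≤ 2 * Real.log E * l := by nlinarith
    nlinarith
  have hlog2 : Real.log (4 * H * (2 * S + 2)) ≤ 12 * S * l := by
    have e1 : 4 * H * (2 * (S : ℝ) + 2) = (2 * H) * (4 * S + 4) := by ring
    rw [e1, Real.log_mul (by positivity) (by positivity)]
    have e2 := Real.log_le_sub_one_of_pos (x := 4 * (S : ℝ) + 4) (by positivity)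
    have e3 : l ≤ S * l := by nlinarith
    have e4 : 7 * (S : ℝ) ≤ 11 * S * l := by nlinarith
    rw [← hl]
    nlinarith
  have hlogN : 0 ≤ Real.log ((N0 + 1 : ℕ) : ℝ) := Real.log_nonneg (by linarith)
  have hfin : V * Real.log (4 * H * (2 * S + 2)) + (2 * S + 2 * V) * Real.log ((N0 + 1 : ℕ) : ℝ) ≤
      (12 * V + (2 + 2 * V) * (2 * Real.log E + u)) * S * l := by
    have e1 : V * Real.log (4 * H * (2 * S + 2)) ≤ V * (12 * S * l) := mul_le_mul_of_nonneg_left hlog2 hV0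
    have e2 : (2 * S + 2 * V) * Real.log ((N0 + 1 : ℕ) : ℝ) ≤ ((2 + 2 * V) * S) * ((2 * Real.log E + u) * l) := by
      apply mul_le_mul _ hlog1 hlogN (by positivity)
      nlinarith
    calc _ ≤ V * (12 * S * l) + ((2 + 2 * V) * S) * ((2 * Real.log E + u) * l) := add_le_add e1 e2
      _ = _ := by ring
  calc (k : ℝ) ≤ _ := hmain
    _ ≤ (E * l ^ u) * ((12 * V + (2 + 2 * V) * (2 * Real.log E + u)) * S * l) := by
        have hneg : 0 ≤ (12 * V + (2 + 2 * V) * (2 * Real.log E + u)) * S * l := by positivity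
        calc _ ≤ ((N0 + 1 : ℕ) : ℝ) * ((12 * V + (2 + 2 * V) * (2 * Real.log E + u)) * S * l) :=
              mul_le_mul_of_nonneg_left hfin (by linarith)
          _ ≤ _ := mul_le_mul_of_nonneg_right hN3 hneg
    _ = (E * (12 * V + (2 + 2 * V) * (2 * Real.log E + u))) * S * l ^ (u + 1) := by
        rw [pow_succ]; ring
    _ ≤ _ := by
        apply mul_le_mul_of_nonneg_right _ (by positivity)
        apply mul_le_mul_of_nonneg_right _ (by positivity)
        linarith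

end Pool.Agent.Helper43.OD
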