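import Mathlib
import Pool.Agent.Helper43.OD.Win4

set_option autoImplicit false

namespace Pool.Agent.Helper43.OD

open Finset

/-- denominators of cluster sums -/
lemma wB_int (u w k S : ℕ) (W : Finset ℕ) (c0 : ℤ) (c : ℕ → ℤ) (hu : 1 ≤ u) (hw : 1 ≤ w) (hS : S ≤ k)
    (hW : ∀ r ∈ W, InWin u (u + w) k S r) (N : ℕ) (hN : 1 ≤ N) :
    ∃ M : ℕ, M ^ (u + w) ∣ N ^ (k + S) ∧ ∃ z : ℤ, (M : ℝ) * wB u w k W c0 c N = z := by
  classical
  set A1 : Finset ℕ := ((wK u w N) ×ˢ W).image (fun x => wD k x.2 x.1) with hA1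
  set A2 : Finset ℕ := ((wK u w N).filter (fun q => q.1 = 0)).image (fun q => wD k k q) with hA2
  set M : ℕ := (A1 ∪ A2).lcm id with hM
  have hdiv : ∀ a ∈ A1 ∪ A2, a ^ (u + w) ∣ N ^ (k + S) := by
    intro a ha
    rcases Finset.mem_union.1 ha with ha | ha
    · obtain ⟨x, hx, rfl⟩ := Finset.mem_image.1 ha
      have hx' := Finset.mem_product.1 hx
      have h1 := dvd_upper u w k S x.2 hu hw hS (hW _ hx'.2) x.1
      rwa [(mem_wK u w N hu x.1).1 hx'.1] at h1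
    · obtain ⟨q, hq, rfl⟩ := Finset.mem_image.1 ha
      have hq' := Finset.mem_filter.1 hq
      have h1 := diag_pow u w k q hq'.2
      rw [(mem_wK u w N hu q).1 hq'.1] at h1
      rw [h1]
      exact pow_dvd_pow _ (by omega)
  refine ⟨M, lcm_pow_dvd _ _ _ hdiv, ?_⟩
  unfold wB
  rw [Finset.mul_sum]
  have hq : ∀ q ∈ wK u w N, ∃ z : ℤ, (M : ℝ) * wG k W c0 c q = z := by
    intro q hq
    unfold wG
    split_ifs with h0
    · have hd : wD k k q ∣ M := by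
        apply Finset.dvd_lcm (f := id)
        exact Finset.mem_union_right _ (Finset.mem_image.2 ⟨q, Finset.mem_filter.2 ⟨hq, h0⟩, rfl⟩)
      obtain ⟨t, ht⟩ := hd
      refine ⟨- c0 * t, ?_⟩
      have hne : ((wD k k q : ℕ) : ℝ) ≠ 0 := by exact_mod_cast (wD_pos k k q).ne'
      rw [ht]
      push_cast
      field_simp
    · have hr : ∀ r ∈ W, ∃ z : ℤ, (M : ℝ) * ((c r : ℝ) / (wD k r q : ℝ)) = z := by
        intro r hr
        have hd : wD k r q ∣ M := by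
          apply Finset.dvd_lcm (f := id)
          exact Finset.mem_union_left _ (Finset.mem_image.2 ⟨(q, r), Finset.mem_product.2 ⟨hq, hr⟩, rfl⟩)
        obtain ⟨t, ht⟩ := hd
        refine ⟨c r * t, ?_⟩
        have hne : ((wD k r q : ℕ) : ℝ) ≠ 0 := by exact_mod_cast (wD_pos k r q).ne'
        rw [ht]
        push_cast
        field_simp
      choose! z hz using hr
      refine ⟨∑ r ∈ W, z r, ?_⟩
      rw [Finset.mul_sum]
      push_cast
      exact Finset.sum_congr rfl hz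
  choose! z hz using hq
  refine ⟨∑ q ∈ wK u w N, z q, ?_⟩
  push_cast
  exact Finset.sum_congr rfl hz

/-- the tail beyond the clusters up to N0 -/
lemma wF_tail (u w k S N0 : ℕ) (W : Finset ℕ) (c0 : ℤ) (c : ℕ → ℤ) (H : ℝ) (hu : 1 ≤ u) (hw : 1 ≤ w)
    (hk : S + 2 * (u + w) ≤ k) (hW : ∀ r ∈ W, InWin u (u + w) k S r)
    (h0 : |(c0 : ℝ)| ≤ H) (hc : ∀ r ∈ W, |(c r : ℝ)| ≤ H) (y : ℝ) (hy0 : 0 < y)
    (hy : y ^ (u + w) = ((N0 + 1 : ℕ) : ℝ) ^ (k - S - 2 * (u + w))) (x : ℝ)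
    (hrel : HasSum (wG k W c0 c) x) :
    |x - ∑ N ∈ Finset.range (N0 + 1), wB u w k W c0 c N| ≤ 4 * (H * (W.card + 1) / y) := by
  classical
  have hH : 0 ≤ H := le_trans (abs_nonneg _) h0
  set F : Finset (ℕ × ℕ) := (Finset.range N0 ×ˢ Finset.range N0).filter (fun q => wN u w q ≤ N0) with hF
  have hmF : ∀ q, q ∈ F ↔ wN u w q ≤ N0 := by
    intro q
    rw [hF, Finset.mem_filter, Finset.mem_product, Finset.mem_range, Finset.mem_range]
    constructor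
    · exact fun h => h.2
    · intro h
      have := lt_wN u w hu q
      exact ⟨⟨by omega, by omega⟩, h⟩
  have hsumF : ∑ q ∈ F, wG k W c0 c q = ∑ N ∈ Finset.range (N0 + 1), wB u w k W c0 c N := by
    have h1 : ∀ q ∈ F, wN u w q ∈ Finset.range (N0 + 1) := by
      intro q hq
      have := (hmF q).1 hq
      rw [Finset.mem_range]; omega
    rw [← Finset.sum_fiberwise_of_maps_to h1]
    apply Finset.sum_congr rfl
    intro N hN
    unfold wB
    apply Finset.sum_congr _ (fun _ _ => rfl)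
    ext q
    rw [Finset.mem_filter, hmF, mem_wK u w N hu]
    have := Finset.mem_range.1 hN
    constructor
    · exact fun h => h.2
    · intro h; exact ⟨by omega, h⟩
  have h1 := hrel.summable.sum_add_tsum_compl (s := F)
  rw [hrel.tsum_eq, hsumF] at h1
  have h2 : x - ∑ N ∈ Finset.range (N0 + 1), wB u w k W c0 c N =
      ∑' x : ↑((↑F : Set (ℕ × ℕ))ᶜ), wG k W c0 c x := by linarith
  rw [h2]
  obtain ⟨hb1, hb2⟩ := wb_sum
  have hQ : 0 ≤ H * (W.card + 1) / y := by positivity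
  have hbs : Summable (fun q : ℕ × ℕ => (H * (W.card + 1) / y) * wb q) := hb1.mul_left _
  have h3 : ‖∑' x : ↑((↑F : Set (ℕ × ℕ))ᶜ), wG k W c0 c x‖ ≤
      ∑' x : ↑((↑F : Set (ℕ × ℕ))ᶜ), (H * (W.card + 1) / y) * wb x := by
    apply tsum_of_norm_bounded (hbs.subtype _).hasSum
    rintro ⟨q, hq⟩
    rw [Real.norm_eq_abs]
    have hq' : ¬ (wN u w q ≤ N0) := by
      intro hcon
      exact hq (Finset.mem_coe.2 ((hmF q).2 hcon))
    exact wG_bound u w k S N0 W c0 c H hu hw hk hW h0 hc y hy0 hy q (by omega)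
  rw [Real.norm_eq_abs] at h3
  have h4 : ∑' x : ↑((↑F : Set (ℕ × ℕ))ᶜ), (H * (W.card + 1) / y) * wb x ≤ ∑' q : ℕ × ℕ, (H * (W.card + 1) / y) * wb q :=
    hbs.tsum_subtype_le (fun q => (H * (W.card + 1) / y) * wb q) _ (fun q => mul_nonneg hQ (wb_nonneg q))
  have h5 : ∑' q : ℕ × ℕ, (H * (W.card + 1) / y) * wb q = (H * (W.card + 1) / y) * ∑' q : ℕ × ℕ, wb q :=
    tsum_mul_left
  rw [h5] at h4
  calc _ ≤ _ := h3
    _ ≤ _ := h4
    _ ≤ (H * (W.card + 1) / y) * 4 := mul_le_mul_of_nonneg_left hb2 hQ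
    _ = _ := by ring

/-- the part of a relation, as a sum over all pairs -/
lemma gen_hasSum (k : ℕ) (W : Finset ℕ) (c0 : ℤ) (c : ℕ → ℤ) (hk2 : 2 ≤ k)
    (hW : ∀ r ∈ W, 2 ≤ r ∧ r + 1 ≤ k) :
    HasSum (wG k W c0 c) ((-(c0 : ℝ)) * ∑' n : ℕ, (1 : ℝ) / ((n + 1 : ℕ) : ℝ) ^ k +
      ∑ r ∈ W, (c r : ℝ) * ∑' p : ℕ × ℕ, dt r (k - r) p) := by
  have hz : Summable (fun n : ℕ => (1 : ℝ) / ((n + 1 : ℕ) : ℝ) ^ k) := by
    have h1 : Summable (fun n : ℕ => (1 : ℝ) / (n : ℝ) ^ k) := Real.summable_one_div_nat_pow.2 (by omega)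
    exact h1.comp_injective (add_left_injective 1)
  set Zk : ℝ := ∑' n : ℕ, (1 : ℝ) / ((n + 1 : ℕ) : ℝ) ^ k with hZk
  have h1 : HasSum (fun n : ℕ => (-(c0 : ℝ)) * (1 / ((n + 1 : ℕ) : ℝ) ^ k)) ((-(c0 : ℝ)) * Zk) :=
    hz.hasSum.mul_left _
  have h2 : HasSum (fun p : ℕ × ℕ => ∑ r ∈ W, (c r : ℝ) * dt r (k - r) p)
      (∑ r ∈ W, (c r : ℝ) * ∑' p : ℕ × ℕ, dt r (k - r) p) := by
    apply hasSum_sum
    intro r hr
    have hr' := hW r hr
    exact (dt_summable r (k - r) hr'.1 (by omega)).hasSum.mul_left _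
  have h3 : HasSum (fun n : ℕ => wG k W c0 c (0, n)) ((-(c0 : ℝ)) * Zk) := by
    refine h1.congr_fun ?_
    intro n
    have e : wG k W c0 c (0, n) = - (c0 : ℝ) / ((wD k k (0, n) : ℕ) : ℝ) := by
      unfold wG; rw [if_pos rfl]
    have e2 : wD k k (0, n) = (n + 1) ^ k := by
      unfold wD; rw [Nat.sub_self, pow_zero, mul_one]; simp
    rw [e, e2, Nat.cast_pow]
    rw [div_eq_mul_one_div]
  have h4 : HasSum (fun p : ℕ × ℕ => wG k W c0 c (p.1 + 1, p.2))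
      (∑ r ∈ W, (c r : ℝ) * ∑' p : ℕ × ℕ, dt r (k - r) p) := by
    refine h2.congr_fun ?_
    intro p
    have e : wG k W c0 c (p.1 + 1, p.2) = ∑ r ∈ W, (c r : ℝ) / ((wD k r (p.1 + 1, p.2) : ℕ) : ℝ) := by
      unfold wG; rw [if_neg (Nat.succ_ne_zero _)]
    rw [e]
    apply Finset.sum_congr rfl
    intro r _
    have e2 : wD k r (p.1 + 1, p.2) = (p.1 + p.2 + 2) ^ r * (p.2 + 1) ^ (k - r) := by
      unfold wD
      have : p.1 + 1 + p.2 + 1 = p.1 + p.2 + 2 := by ring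
      simp only
      rw [this]
    rw [e2, Nat.cast_mul, Nat.cast_pow, Nat.cast_pow]
    unfold dt
    rw [div_eq_mul_one_div]
  exact hasSum_split _ _ _ h3 h4

/-- no clusters p^j with 1 <= j < u -/
lemma wK_empty (u w p j : ℕ) (hu : 1 ≤ u) (hp : p.Prime) (hj1 : 1 ≤ j) (hj : j < u) :
    wK u w (p ^ j) = ∅ := by
  rw [Finset.eq_empty_iff_forall_notMem]
  rintro ⟨a, b⟩ hq
  rw [mem_wK u w _ hu] at hq
  have hp2 := hp.two_le
  unfold wN at hq
  simp only at hq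
  have h1 : (a + b + 1) ∣ p ^ j := by
    rw [← hq]
    exact Dvd.dvd.mul_right (dvd_pow_self _ (by omega)) _
  obtain ⟨i, hi1, hi2⟩ := (Nat.dvd_prime_pow hp).1 h1
  have hi0 : i ≠ 0 := by
    intro h0
    rw [h0, pow_zero] at hi2
    have ha : a = 0 := by omega
    have hb : b = 0 := by omega
    subst ha hb
    simp at hq
    have := Nat.one_lt_pow (n := j) (by omega) (by omega : 1 < p)
    omega
  have h3 : p ≤ a + b + 1 := by
    rw [hi2]
    calc p = p ^ 1 := (pow_one p).symm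
      _ ≤ p ^ i := Nat.pow_le_pow_right (by omega) (by omega)
  have h4 : p ^ u ≤ (a + b + 1) ^ u * (b + 1) ^ w := by
    calc p ^ u = p ^ u * 1 := (mul_one _).symm
      _ ≤ _ := Nat.mul_le_mul (Nat.pow_le_pow_left h3 u) (Nat.one_le_pow _ _ (by omega))
  have h5 : p ^ j < p ^ u := Nat.pow_lt_pow_right (by omega) hj
  omega

end Pool.Agent.Helper43.OD
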