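import Mathlib
import Pool.Agent.Helper43.OD.Multi1

set_option autoImplicit false

namespace Pool.Agent.Helper43.OD

open Finset

/-- indices attached to the direction u -/
def mW (W : Finset ℕ) (U : ℕ → ℕ) (u : ℕ) : Finset ℕ := W.filter (fun r => U r = u)

/-- the coefficient of zeta(k), attached to the direction 1 -/
def m0 (c0 : ℤ) (u : ℕ) : ℤ := if u = 1 then c0 else 0

/-- cluster sums of all directions -/
noncomputable def mB (v t k : ℕ) (W : Finset ℕ) (U : ℕ → ℕ) (c0 : ℤ) (c : ℕ → ℤ) (N : ℕ) : ℝ :=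
  ∑ u ∈ Finset.Icc 1 t, wB u (v - u) k (mW W U u) (m0 c0 u) c N

lemma mB_zero (v t k : ℕ) (W : Finset ℕ) (U : ℕ → ℕ) (c0 : ℤ) (c : ℕ → ℤ) : mB v t k W U c0 c 0 = 0 := by
  unfold mB wB wK
  apply Finset.sum_eq_zero
  intro u _
  simp

lemma m_lower (v t k S : ℕ) (W : Finset ℕ) (U : ℕ → ℕ) (c0 : ℤ) (c : ℕ → ℤ) (ht : t < v) (hS : S ≤ k)
    (hU : ∀ r ∈ W, 1 ≤ U r ∧ U r ≤ t ∧ InWin (U r) v k S r) (N : ℕ) (hB : mB v t k W U c0 c N ≠ 0) :
    ∃ M : ℕ, 0 < M ∧ M ^ v ≤ N ^ (k + S) ∧ 1 ≤ M * |mB v t k W U c0 c N| := by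
  classical
  have hN : 1 ≤ N := by
    rw [Nat.one_le_iff_ne_zero]
    intro h
    rw [h] at hB
    exact hB (mB_zero v t k W U c0 c)
  have h1 : ∀ u ∈ Finset.Icc 1 t, ∃ M : ℕ, M ^ v ∣ N ^ (k + S) ∧
      ∃ z : ℤ, (M : ℝ) * wB u (v - u) k (mW W U u) (m0 c0 u) c N = z := by
    intro u hu
    have hu' := Finset.mem_Icc.1 hu
    have hv : u + (v - u) = v := by omega
    have hW : ∀ r ∈ mW W U u, InWin u (u + (v - u)) k S r := by
      intro r hr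
      have hr' := Finset.mem_filter.1 hr
      have := (hU r hr'.1).2.2
      rw [hr'.2] at this
      rwa [hv]
    have := wB_int u (v - u) k S (mW W U u) (m0 c0 u) c hu'.1 (by omega) hS hW N hN
    rwa [hv] at this
  choose! Mu hMu1 hMu2 using h1
  set A : Finset ℕ := (Finset.Icc 1 t).image Mu with hA
  set M : ℕ := A.lcm id with hM
  have hdiv : M ^ v ∣ N ^ (k + S) := by
    apply lcm_pow_dvd
    intro a ha
    obtain ⟨u, hu, rfl⟩ := Finset.mem_image.1 ha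
    exact hMu1 u hu
  have hMpos : 0 < M := by
    rw [Nat.pos_iff_ne_zero]
    intro h0
    rw [h0, zero_pow (by omega)] at hdiv
    have := Nat.eq_zero_of_zero_dvd hdiv
    have h2 : 0 < N ^ (k + S) := by positivity
    omega
  refine ⟨M, hMpos, Nat.le_of_dvd (by positivity) hdiv, ?_⟩
  have hint : ∃ z : ℤ, (M : ℝ) * mB v t k W U c0 c N = z := by
    unfold mB
    rw [Finset.mul_sum]
    have hq : ∀ u ∈ Finset.Icc 1 t, ∃ z : ℤ, (M : ℝ) * wB u (v - u) k (mW W U u) (m0 c0 u) c N = z := by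
      intro u hu
      obtain ⟨z, hz⟩ := hMu2 u hu
      have hd : Mu u ∣ M := by
        apply Finset.dvd_lcm (f := id)
        exact Finset.mem_image.2 ⟨u, hu, rfl⟩
      obtain ⟨s, hs⟩ := hd
      refine ⟨s * z, ?_⟩
      rw [hs]
      push_cast
      rw [← hz]
      ring
    choose! z hz using hq
    refine ⟨∑ u ∈ Finset.Icc 1 t, z u, ?_⟩
    push_cast
    exact Finset.sum_congr rfl hz
  obtain ⟨z, hz⟩ := hint
  have hM' : (0 : ℝ) < M := by exact_mod_cast hMpos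
  have hz0 : z ≠ 0 := by
    intro h0
    rw [h0] at hz
    push_cast at hz
    rcases mul_eq_zero.1 hz with h | h
    · linarith
    · exact hB h
  have h1 : (1 : ℝ) ≤ |(z : ℝ)| := by exact_mod_cast Int.one_le_abs hz0
  rw [← hz, abs_mul, abs_of_pos hM'] at h1
  exact h1

lemma m_upper (v t k S N0 : ℕ) (W : Finset ℕ) (U : ℕ → ℕ) (c0 : ℤ) (c : ℕ → ℤ) (H : ℝ) (ht1 : 1 ≤ t) (ht : t < v)
    (hk : S + 2 * v ≤ k) (hU : ∀ r ∈ W, 1 ≤ U r ∧ U r ≤ t ∧ InWin (U r) v k S r)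
    (h0 : |(c0 : ℝ)| ≤ H) (hc : ∀ r ∈ W, |(c r : ℝ)| ≤ H) (y : ℝ) (hy0 : 0 < y)
    (hy : y ^ v = ((N0 + 1 : ℕ) : ℝ) ^ (k - S - 2 * v)) (hk2 : 2 ≤ k)
    (hrel : ∑ r ∈ W, (c r : ℝ) * ∑' p : ℕ × ℕ, dt r (k - r) p =
      c0 * ∑' n : ℕ, (1 : ℝ) / ((n + 1 : ℕ) : ℝ) ^ k)
    (hz : ∀ N < N0, mB v t k W U c0 c N = 0) :
    |mB v t k W U c0 c N0| ≤ 4 * t * (H * (2 * S + 2) / y) := by
  classical
  have hH : 0 ≤ H := le_trans (abs_nonneg _) h0
  set Zk : ℝ := ∑' n : ℕ, (1 : ℝ) / ((n + 1 : ℕ) : ℝ) ^ k with hZk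
  set x : ℕ → ℝ := fun u => (-((m0 c0 u : ℤ) : ℝ)) * Zk + ∑ r ∈ mW W U u, (c r : ℝ) * ∑' p : ℕ × ℕ, dt r (k - r) p with hx
  have hxsum : ∑ u ∈ Finset.Icc 1 t, x u = 0 := by
    simp only [hx]
    rw [Finset.sum_add_distrib]
    have e1 : ∑ u ∈ Finset.Icc 1 t, ∑ r ∈ mW W U u, (c r : ℝ) * ∑' p : ℕ × ℕ, dt r (k - r) p =
        ∑ r ∈ W, (c r : ℝ) * ∑' p : ℕ × ℕ, dt r (k - r) p := by
      unfold mW
      apply Finset.sum_fiberwise_of_maps_to
      intro r hr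
      exact Finset.mem_Icc.2 ⟨(hU r hr).1, (hU r hr).2.1⟩
    have e2 : ∑ u ∈ Finset.Icc 1 t, (-((m0 c0 u : ℤ) : ℝ)) * Zk = - (c0 : ℝ) * Zk := by
      rw [Finset.sum_eq_single 1]
      · unfold m0; simp
      · intro u _ hu1
        unfold m0; rw [if_neg hu1]; simp
      · intro hcon
        exact absurd (Finset.mem_Icc.2 ⟨le_refl 1, ht1⟩) hcon
    rw [e1, e2, hrel]
    ring
  have htail : ∀ u ∈ Finset.Icc 1 t,
      |x u - ∑ N ∈ Finset.range (N0 + 1), wB u (v - u) k (mW W U u) (m0 c0 u) c N| ≤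
        4 * (H * (2 * S + 2) / y) := by
    intro u hu
    have hu' := Finset.mem_Icc.1 hu
    have hv : u + (v - u) = v := by omega
    have hW : ∀ r ∈ mW W U u, InWin u (u + (v - u)) k S r := by
      intro r hr
      have hr' := Finset.mem_filter.1 hr
      have := (hU r hr'.1).2.2
      rw [hr'.2] at this
      rwa [hv]
    have h0u : |((m0 c0 u : ℤ) : ℝ)| ≤ H := by
      unfold m0; split_ifs
      · exact h0
      · simp only [Int.cast_zero, abs_zero]; exact hH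
    have hcu : ∀ r ∈ mW W U u, |(c r : ℝ)| ≤ H := fun r hr => hc r (Finset.mem_filter.1 hr).1
    have hs := gen_hasSum k (mW W U u) (m0 c0 u) c hk2 (fun r hr => ⟨(hW r hr).1, (hW r hr).2.1⟩)
    have h1 := wF_tail u (v - u) k S N0 (mW W U u) (m0 c0 u) c H hu'.1 (by omega) (by rw [hv]; exact hk) hW h0u hcu y hy0
      (by rw [hv]; exact hy) (x u) hs
    refine le_trans h1 ?_
    have hcard : ((mW W U u).card : ℝ) ≤ 2 * S + 1 := by
      exact_mod_cast win_card u (u + (v - u)) k S (by omega) (mW W U u) hW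
    apply mul_le_mul_of_nonneg_left _ (by norm_num)
    apply div_le_div_of_nonneg_right _ hy0.le
    apply mul_le_mul_of_nonneg_left _ hH
    linarith
  have h2 : mB v t k W U c0 c N0 =
      - ∑ u ∈ Finset.Icc 1 t, (x u - ∑ N ∈ Finset.range (N0 + 1), wB u (v - u) k (mW W U u) (m0 c0 u) c N) := by
    rw [Finset.sum_sub_distrib, hxsum, Finset.sum_comm]
    have e1 : ∑ N ∈ Finset.range (N0 + 1), ∑ u ∈ Finset.Icc 1 t, wB u (v - u) k (mW W U u) (m0 c0 u) c N =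
        ∑ N ∈ Finset.range (N0 + 1), mB v t k W U c0 c N := rfl
    rw [e1, Finset.sum_range_succ, Finset.sum_eq_zero (fun N hN => hz N (Finset.mem_range.1 hN))]
    ring
  rw [h2, abs_neg]
  refine le_trans (Finset.abs_sum_le_sum_abs _ _) ?_
  refine le_trans (Finset.sum_le_sum htail) ?_
  rw [Finset.sum_const, Nat.card_Icc, nsmul_eq_mul]
  have : ((t + 1 - 1 : ℕ) : ℝ) = t := by simp
  rw [this]
  apply le_of_eq; ring

lemma m_main (v t k S N0 : ℕ) (W : Finset ℕ) (U : ℕ → ℕ) (c0 : ℤ) (c : ℕ → ℤ) (H : ℝ) (ht1 : 1 ≤ t) (ht : t < v)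
    (hk : S + 2 * v ≤ k) (hU : ∀ r ∈ W, 1 ≤ U r ∧ U r ≤ t ∧ InWin (U r) v k S r)
    (h0 : |(c0 : ℝ)| ≤ H) (hc : ∀ r ∈ W, |(c r : ℝ)| ≤ H) (hH1 : 1 ≤ H) (hk2 : 2 ≤ k)
    (hrel : ∑ r ∈ W, (c r : ℝ) * ∑' p : ℕ × ℕ, dt r (k - r) p =
      c0 * ∑' n : ℕ, (1 : ℝ) / ((n + 1 : ℕ) : ℝ) ^ k)
    (hz : ∀ N < N0, mB v t k W U c0 c N = 0) (hne : mB v t k W U c0 c N0 ≠ 0) :
    (k : ℝ) ≤ ((N0 + 1 : ℕ) : ℝ) * ((v : ℝ) * Real.log (4 * t * H * (2 * S + 2)) +
      (2 * S + 2 * v) * Real.log ((N0 + 1 : ℕ) : ℝ)) := by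
  have hv0 : v ≠ 0 := by omega
  have hN0 : 1 ≤ N0 := by
    rw [Nat.one_le_iff_ne_zero]
    intro h
    apply hne
    rw [h]
    exact mB_zero _ _ _ _ _ _ _
  set Y : ℝ := ((N0 + 1 : ℕ) : ℝ) ^ (k - S - 2 * v) with hY
  have hY0 : 0 < Y := by positivity
  set y : ℝ := Y ^ ((v : ℝ)⁻¹) with hy
  have hy0 : 0 < y := Real.rpow_pos_of_pos hY0 _
  have hyv : y ^ v = Y := Real.rpow_inv_natCast_pow hY0.le hv0
  have h1 := m_upper v t k S N0 W U c0 c H ht1 ht hk hU h0 hc y hy0 hyv hk2 hrel hz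
  obtain ⟨M, hM0, hM1, hM2⟩ := m_lower v t k S W U c0 c ht (by omega) hU N0 hne
  have hM' : (0 : ℝ) < M := by exact_mod_cast hM0
  have hS0 : (0 : ℝ) ≤ S := Nat.cast_nonneg _
  have ht0 : (1 : ℝ) ≤ t := by exact_mod_cast ht1
  have h2 : y ≤ (4 * t * H * (2 * S + 2)) * M := by
    have e1 : 1 ≤ M * (4 * t * (H * (2 * S + 2) / y)) := le_trans hM2 (mul_le_mul_of_nonneg_left h1 hM'.le)
    have e2 : y ≤ y * (M * (4 * t * (H * (2 * S + 2) / y))) := le_mul_of_one_le_right hy0.le e1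
    have e3 : y * (M * (4 * t * (H * (2 * S + 2) / y))) = (4 * t * H * (2 * S + 2)) * M := by
      field_simp
    rw [e3] at e2
    exact e2
  have h3 : Y ≤ (4 * t * H * (2 * S + 2)) ^ v * (N0 : ℝ) ^ (k + S) := by
    calc Y = y ^ v := hyv.symm
      _ ≤ ((4 * t * H * (2 * S + 2)) * M) ^ v := pow_le_pow_left₀ hy0.le h2 _
      _ = (4 * t * H * (2 * S + 2)) ^ v * (M : ℝ) ^ v := mul_pow _ _ _
      _ ≤ _ := by
          apply mul_le_mul_of_nonneg_left _ (by positivity)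
          exact_mod_cast hM1
  have hNr : (1 : ℝ) ≤ (N0 : ℝ) := by exact_mod_cast hN0
  have hQ : 0 < 4 * (t : ℝ) * H * (2 * (S : ℝ) + 2) := by positivity
  have h4 := Real.log_le_log hY0 h3
  rw [hY, Real.log_pow, Real.log_mul (by positivity) (by positivity), Real.log_pow, Real.log_pow] at h4
  have e5 : ((k - S - 2 * v : ℕ) : ℝ) = (k : ℝ) - S - 2 * v := by
    rw [Nat.sub_sub, Nat.cast_sub (by omega)]
    push_cast; ring
  rw [e5] at h4
  have h6 : 1 / ((N0 + 1 : ℕ) : ℝ) ≤ Real.log ((N0 + 1 : ℕ) : ℝ) - Real.log N0 := by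
    rw [← Real.log_div (by positivity) (by positivity)]
    have e1 := Real.one_sub_inv_le_log_of_pos (x := ((N0 + 1 : ℕ) : ℝ) / (N0 : ℝ)) (by positivity)
    refine le_trans (le_of_eq ?_) e1
    push_cast
    field_simp
    ring
  have h7 : Real.log N0 ≤ Real.log ((N0 + 1 : ℕ) : ℝ) := Real.log_le_log (by linarith) (by push_cast; linarith)
  have h8 : 0 ≤ Real.log (N0 : ℝ) := Real.log_nonneg hNr
  have hkS : ((k + S : ℕ) : ℝ) = (k : ℝ) + S := by push_cast; ring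
  rw [hkS] at h4
  have hk0 : (0 : ℝ) ≤ k := Nat.cast_nonneg _
  set L1 := Real.log ((N0 + 1 : ℕ) : ℝ) with hL1
  set L0 := Real.log (N0 : ℝ) with hL0
  set A := Real.log (4 * (t : ℝ) * H * (2 * (S : ℝ) + 2)) with hA
  have h9 : (k : ℝ) * (1 / ((N0 + 1 : ℕ) : ℝ)) ≤ (v : ℝ) * A + (2 * S + 2 * v) * L1 := by
    have e1 : (k : ℝ) * (1 / ((N0 + 1 : ℕ) : ℝ)) ≤ k * (L1 - L0) := mul_le_mul_of_nonneg_left h6 hk0
    have e2 : (S : ℝ) * L0 ≤ S * L1 := mul_le_mul_of_nonneg_left h7 hS0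
    nlinarith
  have h10 : (k : ℝ) = ((N0 + 1 : ℕ) : ℝ) * ((k : ℝ) * (1 / ((N0 + 1 : ℕ) : ℝ))) := by
    field_simp
  rw [h10]
  exact mul_le_mul_of_nonneg_left h9 (by positivity)

/-- primes divide the top coefficient of the lowest direction -/
lemma m_prime (v t k : ℕ) (W : Finset ℕ) (U : ℕ → ℕ) (c : ℕ → ℤ) (ht : t < v)
    (u1 r0 p : ℕ) (hp : p.Prime) (hu1 : 1 ≤ u1) (hu2 : u1 ≤ t)
    (hmin : ∀ r ∈ W, U r < u1 → c r = 0) (hr0 : r0 ∈ mW W U u1)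
    (htop : ∀ r ∈ mW W U u1, r0 < r → c r = 0)
    (hB : mB v t k W U 0 c (p ^ u1) = 0) : (p : ℤ) ∣ c r0 := by
  have h1 : mB v t k W U 0 c (p ^ u1) = wB u1 (v - u1) k (mW W U u1) 0 c (p ^ u1) := by
    unfold mB
    rw [Finset.sum_eq_single u1]
    · unfold m0; simp
    · intro u hu hne
      have hu' := Finset.mem_Icc.1 hu
      rcases lt_or_gt_of_ne hne with h | h
      · unfold wB
        apply Finset.sum_eq_zero
        intro q _
        unfold wG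
        split_ifs with hq
        · unfold m0; simp
        · apply Finset.sum_eq_zero
          intro r hr
          have hr' := Finset.mem_filter.1 hr
          rw [hmin r hr'.1 (by rw [hr'.2]; exact h)]
          simp
      · unfold wB
        rw [wK_empty u (v - u) p u1 (by omega) hp hu1 h, Finset.sum_empty]
    · intro hcon
      exact absurd (Finset.mem_Icc.2 ⟨hu1, hu2⟩) hcon
  rw [h1] at hB
  exact prime_dvd_top k u1 (v - u1) (mW W U u1) 0 c hu1 (by omega) p r0 hp hr0 htop hB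

lemma mB_one (v t k : ℕ) (W : Finset ℕ) (U : ℕ → ℕ) (c0 : ℤ) (c : ℕ → ℤ) (ht1 : 1 ≤ t) :
    mB v t k W U c0 c 1 = - (c0 : ℝ) := by
  unfold mB
  rw [Finset.sum_eq_single 1]
  · rw [wB_one 1 (v - 1) k _ _ c (le_refl 1)]
    unfold m0; simp
  · intro u hu hne
    have hu' := Finset.mem_Icc.1 hu
    rw [wB_one u (v - u) k _ _ c hu'.1]
    unfold m0; rw [if_neg hne]; simp
  · intro hcon
    exact absurd (Finset.mem_Icc.2 ⟨le_refl 1, ht1⟩) hcon

end Pool.Agent.Helper43.OD
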