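import Mathlib
import Pool.Agent.Helper43.OD.Multi2

set_option autoImplicit false

namespace Pool.Agent.Helper43.OD

open Finset

lemma m_theta (v t k N0 : ℕ) (W : Finset ℕ) (U : ℕ → ℕ) (c : ℕ → ℤ) (H : ℝ) (ht : t < v)
    (hU : ∀ r ∈ W, 1 ≤ U r ∧ U r ≤ t) (hne : ∃ r ∈ W, c r ≠ 0) (hc : ∀ r ∈ W, |(c r : ℝ)| ≤ H) :
    ∃ u1 : ℕ, 1 ≤ u1 ∧ u1 ≤ t ∧
      ((∀ N < N0, mB v t k W U 0 c N = 0) → ∀ y : ℕ, y ^ u1 < N0 → Chebyshev.theta y ≤ Real.log H) ∧
      (∃ p : ℕ, mB v t k W U 0 c (p ^ u1) ≠ 0) := by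
  classical
  set A := W.filter (fun s => c s ≠ 0) with hA
  have hAne : A.Nonempty := by
    obtain ⟨s, hs, hs2⟩ := hne
    exact ⟨s, Finset.mem_filter.2 ⟨hs, hs2⟩⟩
  obtain ⟨r1, hr1, hr1min⟩ := Finset.exists_min_image A U hAne
  have hr1' := Finset.mem_filter.1 hr1
  set u1 := U r1 with hu1
  have hmin : ∀ r ∈ W, U r < u1 → c r = 0 := by
    intro r hr hlt
    by_contra hcon
    have := hr1min r (Finset.mem_filter.2 ⟨hr, hcon⟩)
    omega
  have hmem : r1 ∈ mW W U u1 := Finset.mem_filter.2 ⟨hr1'.1, rfl⟩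
  obtain ⟨r0, a1, a2, a3⟩ := exists_top' (mW W U u1) c ⟨r1, hmem, hr1'.2⟩
  have hb1 := (hU r1 hr1'.1).1
  have hb2 := (hU r1 hr1'.1).2
  refine ⟨u1, hb1, hb2, ?_, ?_⟩
  · intro hz y hy
    have h1 : primorial y ∣ (c r0).natAbs := by
      unfold primorial
      apply Finset.prod_primes_dvd
      · intro p hp
        exact (Finset.mem_filter.1 hp).2.prime
      · intro p hp
        have b1 := Finset.mem_filter.1 hp
        have b2 : p ≤ y := by
          have := b1.1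
          simp at this
          omega
        have b3 : p ^ u1 < N0 := lt_of_le_of_lt (Nat.pow_le_pow_left b2 u1) hy
        have := m_prime v t k W U c ht u1 r0 p b1.2 hb1 hb2 hmin a1 a3 (hz _ b3)
        exact Int.natCast_dvd.1 this
    have h2 : primorial y ≤ (c r0).natAbs := Nat.le_of_dvd (Int.natAbs_pos.2 a2) h1
    have h3 : (primorial y : ℝ) ≤ H := by
      have b1 : ((primorial y : ℕ) : ℝ) ≤ ((c r0).natAbs : ℝ) := by exact_mod_cast h2
      have b2 : (((c r0).natAbs : ℕ) : ℝ) = |(c r0 : ℝ)| := by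
        rw [Nat.cast_natAbs]; push_cast; rfl
      rw [b2] at b1
      exact le_trans b1 (hc r0 (Finset.mem_filter.1 a1).1)
    rw [Chebyshev.theta_eq_log_primorial, Nat.floor_natCast]
    exact Real.log_le_log (by exact_mod_cast primorial_pos y) h3
  · obtain ⟨p, hp1, hp2⟩ := Nat.exists_infinite_primes ((c r0).natAbs + 1)
    refine ⟨p, ?_⟩
    intro hcon
    have h5 := m_prime v t k W U c ht u1 r0 p hp2 hb1 hb2 hmin a1 a3 hcon
    have h6 : p ∣ (c r0).natAbs := Int.natCast_dvd.1 h5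
    have h7 := Nat.le_of_dvd (Int.natAbs_pos.2 a2) h6
    omega

theorem rational_windows : ∀ v t : ℕ, 1 ≤ t → t < v → ∃ C : ℝ,
    ∀ (k S : ℕ) (W : Finset ℕ) (c0 : ℤ) (c : ℕ → ℤ) (H : ℝ), 2 ≤ k →
    (∀ r ∈ W, 2 ≤ r ∧ r + 1 ≤ k ∧ ∃ u : ℕ, 1 ≤ u ∧ u ≤ t ∧ |(v : ℤ) * r - u * k| ≤ S) →
    (c0 ≠ 0 ∨ ∃ r ∈ W, c r ≠ 0) → |(c0 : ℝ)| ≤ H → (∀ r ∈ W, |(c r : ℝ)| ≤ H) →
    ∑ r ∈ W, (c r : ℝ) * ∑' p : ℕ × ℕ,
        (1 : ℝ) / ((((p.1 + p.2 + 2 : ℕ) : ℝ) ^ r) * (((p.2 + 1 : ℕ) : ℝ) ^ (k - r))) =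
      c0 * ∑' n : ℕ, (1 : ℝ) / ((n + 1 : ℕ) : ℝ) ^ k →
    (k : ℝ) ≤ C * Real.log (2 * H) ^ t * (Real.log (2 * H) + S * Real.log (2 + Real.log (2 * H))) := by
  intro v t ht1 ht
  obtain ⟨C1, hC1, hC1'⟩ := cheb
  set E : ℝ := 2 * (3 * C1) ^ t with hE
  have hE1 : 1 ≤ E := by
    have : (1 : ℝ) ≤ (3 * C1) ^ t := one_le_pow₀ (by linarith)
    rw [hE]; linarith
  have hlE : 0 ≤ Real.log E := Real.log_nonneg hE1
  have hv0 : (0 : ℝ) ≤ v := Nat.cast_nonneg _
  have htr : (1 : ℝ) ≤ t := by exact_mod_cast ht1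
  have hl4t : 0 ≤ Real.log (4 * t) := Real.log_nonneg (by linarith)
  set G : ℝ := 2 * Real.log E + t with hG
  have hG0 : 0 ≤ G := by rw [hG]; linarith
  set K : ℝ := v + 2 * v * Real.log (4 * t) + 6 * v * G + 2 * v + 2 * G with hK
  have hK0 : 0 ≤ K := by rw [hK]; positivity
  refine ⟨(2 + 4 * v) * 2 ^ t + E * K, ?_⟩
  intro k S W c0 c H hk2 hW hne h0 hc hrel
  have hH1 : 1 ≤ H := by
    rcases hne with h | ⟨s, hs, h⟩
    · have := Int.one_le_abs h
      have h2 : (1 : ℝ) ≤ |(c0 : ℝ)| := by exact_mod_cast this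
      linarith
    · have := Int.one_le_abs h
      have h2 : (1 : ℝ) ≤ |(c s : ℝ)| := by exact_mod_cast this
      linarith [hc s hs]
  have hS0 : (0 : ℝ) ≤ (S : ℝ) := Nat.cast_nonneg _
  have hl2' : (0.69 : ℝ) ≤ Real.log 2 := by have := Real.log_two_gt_d9; linarith
  have hlH : 0 ≤ Real.log H := Real.log_nonneg hH1
  have hell : Real.log (2 * H) = Real.log 2 + Real.log H := Real.log_mul (by norm_num) (by linarith)
  set l : ℝ := Real.log (2 * H) with hl
  have hl0 : (0.69 : ℝ) ≤ l := by linarith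
  have hl1 : 0 < l := by linarith
  set lam : ℝ := Real.log (2 + l) with hlam
  have hlam1 : (0.69 : ℝ) ≤ lam := le_trans hl2' (Real.log_le_log (by norm_num) (by linarith))
  have hlam2 : lam ≤ 3 * l := by
    have := Real.log_le_sub_one_of_pos (x := 2 + l) (by linarith)
    rw [hlam]; linarith
  have hSl : 0 ≤ (S : ℝ) * lam := by positivity
  have hrhs : 0 ≤ l + S * lam := by positivity
  choose! U hU using (fun r (hr : r ∈ W) => (hW r hr).2.2)
  have hU' : ∀ r ∈ W, 1 ≤ U r ∧ U r ≤ t ∧ InWin (U r) v k S r := by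
    intro r hr
    exact ⟨(hU r hr).1, (hU r hr).2.1, (hW r hr).1, (hW r hr).2.1, (hU r hr).2.2⟩
  by_cases hk : S + 2 * v ≤ k
  swap
  · have h1 : (k : ℝ) ≤ S + 2 * v := by
      have : (k : ℝ) ≤ ((S + 2 * v : ℕ) : ℝ) := by exact_mod_cast (by omega : k ≤ S + 2 * v)
      push_cast at this; linarith
    have h2 : (1 : ℝ) ≤ (2 * l) ^ t := one_le_pow₀ (by linarith)
    have h3 : (S : ℝ) + 2 * v ≤ (2 + 4 * v) * (l + S * lam) := by
      have e1 : (S : ℝ) ≤ 2 * (S * lam) := by nlinarith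
      have e2 : (2 : ℝ) * v ≤ 4 * v * l := by nlinarith
      nlinarith [mul_nonneg hv0 hSl]
    calc (k : ℝ) ≤ (2 + 4 * v) * (l + S * lam) := le_trans h1 h3
      _ = (2 + 4 * v) * (l + S * lam) * 1 := by ring
      _ ≤ (2 + 4 * v) * (l + S * lam) * (2 * l) ^ t := mul_le_mul_of_nonneg_left h2 (by positivity)
      _ = ((2 + 4 * v) * 2 ^ t) * l ^ t * (l + S * lam) := by rw [mul_pow]; ring
      _ ≤ _ := by
          apply mul_le_mul_of_nonneg_right _ hrhs
          apply mul_le_mul_of_nonneg_right _ (by positivity)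
          have : 0 ≤ E * K := by positivity
          linarith
  -- the first nonvanishing cluster
  have hex : ∃ N, mB v t k W U c0 c N ≠ 0 := by
    by_cases hc0 : c0 = 0
    · subst hc0
      have hne' : ∃ r ∈ W, c r ≠ 0 := by
        rcases hne with h | h
        · exact absurd rfl h
        · exact h
      obtain ⟨u1, _, _, _, p, hp⟩ := m_theta v t k 0 W U c H ht (fun r hr => ⟨(hU' r hr).1, (hU' r hr).2.1⟩) hne' hc
      exact ⟨_, hp⟩
    · refine ⟨1, ?_⟩
      rw [mB_one v t k W U c0 c ht1]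
      intro hcon
      apply hc0
      have : (c0 : ℝ) = 0 := by linarith
      exact_mod_cast this
  classical
  set N0 := Nat.find hex with hN0
  have hN1 : mB v t k W U c0 c N0 ≠ 0 := Nat.find_spec hex
  have hN2 : ∀ N < N0, mB v t k W U c0 c N = 0 := by
    intro j hj
    have := Nat.find_min hex hj
    push Not at this
    exact this
  have hNpos : 1 ≤ N0 := by
    rw [Nat.one_le_iff_ne_zero]
    intro h
    apply hN1
    rw [h]
    exact mB_zero _ _ _ _ _ _ _
  have hmain := m_main v t k S N0 W U c0 c H ht1 ht hk hU' h0 hc hH1 hk2 hrel hN2 hN1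
  have h3l : 1 ≤ 3 * C1 * l := by nlinarith
  have hNb : (N0 : ℝ) ≤ (3 * C1 * l) ^ t := by
    by_cases hc0 : c0 = 0
    · subst hc0
      have hne' : ∃ r ∈ W, c r ≠ 0 := by
        rcases hne with h | h
        · exact absurd rfl h
        · exact h
      obtain ⟨u1, hu1, hu2, hth, _⟩ := m_theta v t k N0 W U c H ht (fun r hr => ⟨(hU' r hr).1, (hU' r hr).2.1⟩) hne' hc
      have hexX : ∃ X : ℕ, N0 ≤ X ^ u1 := ⟨N0, Nat.le_self_pow (by omega) _⟩
      set X := Nat.find hexX with hX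
      have hX1 : N0 ≤ X ^ u1 := Nat.find_spec hexX
      have hX0 : 1 ≤ X := by
        rw [Nat.one_le_iff_ne_zero]
        intro h
        rw [h, zero_pow (by omega)] at hX1
        omega
      have hX2 : (X - 1) ^ u1 < N0 := by
        have := Nat.find_min hexX (m := X - 1) (by omega)
        omega
      have hthe := hth hN2 (X - 1) hX2
      have h2 := hC1' (X - 1)
      have h3 : ((X - 1 : ℕ) : ℝ) = (X : ℝ) - 1 := by
        rw [Nat.cast_sub hX0]; norm_num
      rw [h3] at h2 hthe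
      have h4 : (X : ℝ) - 1 ≤ C1 * (Real.log H + 1) := by
        refine le_trans h2 ?_
        apply mul_le_mul_of_nonneg_left _ (by linarith)
        linarith
      have h5 : (X : ℝ) ≤ 3 * C1 * l := by
        have e1 : Real.log H + 2 ≤ 3 * l := by linarith
        calc (X : ℝ) ≤ C1 * (Real.log H + 1) + 1 := by linarith
          _ ≤ C1 * (Real.log H + 2) := by nlinarith
          _ ≤ C1 * (3 * l) := mul_le_mul_of_nonneg_left e1 (by linarith)
          _ = _ := by ring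
      calc (N0 : ℝ) ≤ ((X ^ u1 : ℕ) : ℝ) := by exact_mod_cast hX1
        _ = (X : ℝ) ^ u1 := by push_cast; ring
        _ ≤ (3 * C1 * l) ^ u1 := pow_le_pow_left₀ (Nat.cast_nonneg _) h5 u1
        _ ≤ _ := pow_le_pow_right₀ h3l hu2
    · have h1 : mB v t k W U c0 c 1 ≠ 0 := by
        rw [mB_one v t k W U c0 c ht1]
        intro hcon
        apply hc0
        have : (c0 : ℝ) = 0 := by linarith
        exact_mod_cast this
      have h2 : N0 ≤ 1 := Nat.find_min' hex h1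
      calc (N0 : ℝ) ≤ 1 := by exact_mod_cast h2
        _ ≤ _ := one_le_pow₀ h3l
  have hN3 : ((N0 + 1 : ℕ) : ℝ) ≤ E * l ^ t := by
    have e1 : (1 : ℝ) ≤ (N0 : ℝ) := by exact_mod_cast hNpos
    push_cast
    rw [hE]
    have e2 : (3 * C1 * l) ^ t = (3 * C1) ^ t * l ^ t := mul_pow _ _ _
    rw [e2] at hNb
    linarith
  have hN4 : (2 : ℝ) ≤ ((N0 + 1 : ℕ) : ℝ) := by
    have e1 : (1 : ℝ) ≤ (N0 : ℝ) := by exact_mod_cast hNpos
    push_cast; linarith
  have hlog1 : Real.log ((N0 + 1 : ℕ) : ℝ) ≤ G * lam := by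
    have e1 : Real.log ((N0 + 1 : ℕ) : ℝ) ≤ Real.log (E * l ^ t) := Real.log_le_log (by linarith) hN3
    rw [Real.log_mul (by positivity) (by positivity), Real.log_pow] at e1
    have e2 : Real.log l ≤ lam := Real.log_le_log hl1 (by linarith)
    have e3 : (t : ℝ) * Real.log l ≤ t * lam := mul_le_mul_of_nonneg_left e2 (by linarith)
    have e4 : Real.log E ≤ 2 * Real.log E * lam := by nlinarith
    rw [hG]
    nlinarith
  have hlog2 : Real.log (4 * t * H * (2 * S + 2)) ≤ l + 2 * Real.log (4 * t) * l + 2 * (S * lam) := by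
    have e1 : 4 * t * H * (2 * (S : ℝ) + 2) = (2 * H) * ((4 * t) * (S + 1)) := by ring
    have e0 : Real.log ((2 * H) * ((4 * t) * (S + 1))) = l + (Real.log (4 * t) + Real.log ((S : ℝ) + 1)) := by
      rw [Real.log_mul (x := 2 * H) (by positivity) (by positivity),
        Real.log_mul (x := 4 * (t : ℝ)) (by positivity) (by positivity), ← hl]
    rw [e1, e0]
    have e2 := Real.log_le_sub_one_of_pos (x := (S : ℝ) + 1) (by positivity)
    have e3 : (S : ℝ) ≤ 2 * (S * lam) := by nlinarith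
    have e4 : Real.log (4 * t) ≤ 2 * Real.log (4 * t) * l := by nlinarith
    linarith
  have hlogN : 0 ≤ Real.log ((N0 + 1 : ℕ) : ℝ) := Real.log_nonneg (by linarith)
  have hfin : (v : ℝ) * Real.log (4 * t * H * (2 * S + 2)) + (2 * S + 2 * v) * Real.log ((N0 + 1 : ℕ) : ℝ) ≤
      K * (l + S * lam) := by
    have e1 : (v : ℝ) * Real.log (4 * t * H * (2 * S + 2)) ≤ v * (l + 2 * Real.log (4 * t) * l + 2 * (S * lam)) :=
      mul_le_mul_of_nonneg_left hlog2 hv0
    have e2 : (2 * S + 2 * v) * Real.log ((N0 + 1 : ℕ) : ℝ) ≤ (2 * S + 2 * v) * (G * lam) :=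
      mul_le_mul_of_nonneg_left hlog1 (by positivity)
    have e3 : 2 * v * (G * lam) ≤ 2 * v * (G * (3 * l)) := by
      apply mul_le_mul_of_nonneg_left _ (by positivity)
      exact mul_le_mul_of_nonneg_left hlam2 hG0
    have e4 : v * (l + 2 * Real.log (4 * t) * l + 2 * (S * lam)) + (2 * S * (G * lam) + 2 * v * (G * (3 * l))) ≤
        K * (l + S * lam) := by
      have f1 : K * (l + S * lam) - (v * (l + 2 * Real.log (4 * t) * l + 2 * (S * lam)) + (2 * S * (G * lam) + 2 * v * (G * (3 * l)))) =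
          (2 * v + 2 * G) * l + (v + 2 * v * Real.log (4 * t) + 6 * v * G) * (S * lam) := by
        rw [hK]; ring
      have f2 : 0 ≤ (2 * v + 2 * G) * l + (v + 2 * v * Real.log (4 * t) + 6 * v * G) * (S * lam) := by positivity
      linarith
    calc _ ≤ v * (l + 2 * Real.log (4 * t) * l + 2 * (S * lam)) + (2 * S + 2 * v) * (G * lam) := add_le_add e1 e2
      _ = v * (l + 2 * Real.log (4 * t) * l + 2 * (S * lam)) + (2 * S * (G * lam) + 2 * v * (G * lam)) := by ring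
      _ ≤ v * (l + 2 * Real.log (4 * t) * l + 2 * (S * lam)) + (2 * S * (G * lam) + 2 * v * (G * (3 * l))) := by linarith
      _ ≤ _ := e4
  calc (k : ℝ) ≤ _ := hmain
    _ ≤ (E * l ^ t) * (K * (l + S * lam)) := by
        have hneg : 0 ≤ K * (l + S * lam) := by positivity
        calc _ ≤ ((N0 + 1 : ℕ) : ℝ) * (K * (l + S * lam)) :=
              mul_le_mul_of_nonneg_left hfin (by linarith)
          _ ≤ _ := mul_le_mul_of_nonneg_right hN3 hneg
    _ = (E * K) * l ^ t * (l + S * lam) := by ring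
    _ ≤ _ := by
        apply mul_le_mul_of_nonneg_right _ hrhs
        apply mul_le_mul_of_nonneg_right _ (by positivity)
        have : 0 ≤ (2 + 4 * (v : ℝ)) * 2 ^ t := by positivity
        linarith

end Pool.Agent.Helper43.OD
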